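import Mathlib

open Polynomial Finset

namespace Pool.Agent.H49.RR

/-! ## Definitions for the problem on entrywise transforms preserving real-rootedness -/

/-- A real polynomial is real-rooted if it is zero or all of its complex zeros are real. -/
def RealRooted (p : ℝ[X]) : Prop := p = 0 ∨ ∀ z : ℂ, aeval z p = 0 → z.im = 0

/-- The class `𝒫⁺`: real-rooted polynomials `∑_{k ≤ n} a_k x^k` all of whose coefficients
`a_0, …, a_n` are strictly positive (here `n` is the degree). -/
def PPlus (p : ℝ[X]) : Prop := (∀ k ≤ p.natDegree, 0 < p.coeff k) ∧ RealRooted p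

/-- `F[p] = ∑_{k ≤ n} F(a_k) x^k`, where `n` is the degree of `p = ∑_{k ≤ n} a_k x^k`. -/
noncomputable def entrywise (F : ℝ → ℝ) (p : ℝ[X]) : ℝ[X] :=
  ∑ k ∈ range (p.natDegree + 1), monomial k (F (p.coeff k))

/-- `F` preserves real-rootedness. -/
def Preserves (F : ℝ → ℝ) : Prop := ∀ p : ℝ[X], PPlus p → RealRooted (entrywise F p)

end Pool.Agent.H49.RR
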