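import Mathlib

open Polynomial Finset Filter Topology Complex

namespace Pool.Agent.H49.LeRoy

/-! ## Products `∏ (z + s)` with `s ≥ 0` -/

lemma norm_factor_lower {z : ℂ} {x s : ℝ} (hz : ‖z‖ = x) (hs : 0 ≤ s) :
    ‖(-(x : ℂ)) + s‖ ≤ ‖z + s‖ := by
  have h1 : ‖(-(x : ℂ)) + s‖ = |s - x| := by
    rw [← Real.norm_eq_abs, ← Complex.norm_real]
    congr 1
    push_cast
    ring
  rw [h1, abs_le]
  have h2 : ‖z‖ ≤ ‖z + s‖ + ‖(s : ℂ)‖ := by
    calc ‖z‖ = ‖(z + s) - s‖ := by congr 1; ring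
      _ ≤ _ := norm_sub_le _ _
  have h3 : ‖(s : ℂ)‖ ≤ ‖z + s‖ + ‖z‖ := by
    calc ‖(s : ℂ)‖ = ‖(z + s) - z‖ := by congr 1; ring
      _ ≤ _ := norm_sub_le _ _
  rw [Complex.norm_real, Real.norm_eq_abs, abs_of_nonneg hs] at h2 h3
  constructor <;> linarith

lemma norm_factor_upper {z : ℂ} {x s : ℝ} (hz : ‖z‖ = x) (hs : 0 ≤ s) :
    ‖z + s‖ ≤ x + s := by
  calc ‖z + s‖ ≤ ‖z‖ + ‖(s : ℂ)‖ := norm_add_le _ _
    _ = x + s := by rw [hz, Complex.norm_real, Real.norm_eq_abs, abs_of_nonneg hs]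

lemma norm_prod_lower (m : Multiset ℝ) (hm : ∀ s ∈ m, 0 ≤ s) {z : ℂ} {x : ℝ} (hz : ‖z‖ = x) :
    ‖(m.map (fun s : ℝ => (-(x : ℂ)) + s)).prod‖ ≤ ‖(m.map (fun s : ℝ => z + s)).prod‖ := by
  induction m using Multiset.induction_on with
  | empty => simp
  | cons a m ih =>
    rw [Multiset.map_cons, Multiset.prod_cons, Multiset.map_cons, Multiset.prod_cons, norm_mul,
      norm_mul]
    exact mul_le_mul (norm_factor_lower hz (hm a (Multiset.mem_cons_self a m)))
      (ih (fun b hb => hm b (Multiset.mem_cons_of_mem hb))) (norm_nonneg _) (norm_nonneg _)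

lemma norm_prod_upper (m : Multiset ℝ) (hm : ∀ s ∈ m, 0 ≤ s) {z : ℂ} {x : ℝ} (hz : ‖z‖ = x) :
    ‖(m.map (fun s : ℝ => z + s)).prod‖ ≤ (m.map (fun s : ℝ => x + s)).prod := by
  have hx : 0 ≤ x := by rw [← hz]; exact norm_nonneg _
  induction m using Multiset.induction_on with
  | empty => simp
  | cons a m ih =>
    rw [Multiset.map_cons, Multiset.prod_cons, Multiset.map_cons, Multiset.prod_cons, norm_mul]
    exact mul_le_mul (norm_factor_upper hz (hm a (Multiset.mem_cons_self a m)))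
      (ih (fun b hb => hm b (Multiset.mem_cons_of_mem hb))) (norm_nonneg _)
      (add_nonneg hx (hm a (Multiset.mem_cons_self a m)))

lemma prod_pos (m : Multiset ℝ) (hm : ∀ s ∈ m, 0 ≤ s) {x : ℝ} (hx : 0 < x) :
    0 < (m.map (fun s : ℝ => x + s)).prod := by
  induction m using Multiset.induction_on with
  | empty => simp
  | cons a m ih =>
    rw [Multiset.map_cons, Multiset.prod_cons]
    have := hm a (Multiset.mem_cons_self a m)
    exact mul_pos (by linarith) (ih (fun b hb => hm b (Multiset.mem_cons_of_mem hb)))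

/-- `‖M(z)‖ M(x)^A ≥ M(0)^(A+1)` -/
lemma norm_prod_lower' (m : Multiset ℝ) (hm : ∀ s ∈ m, 0 ≤ s) {z : ℂ} {x : ℝ} (hx : 0 ≤ x) {A : ℕ}
    (hA : ∀ s : ℝ, 0 ≤ s → s ^ (A + 1) ≤ ‖z + s‖ * (x + s) ^ A) :
    (m.prod) ^ (A + 1) ≤ ‖(m.map (fun s : ℝ => z + s)).prod‖ *
      (m.map (fun s : ℝ => x + s)).prod ^ A := by
  induction m using Multiset.induction_on with
  | empty => simp
  | cons a m ih =>
    simp only [Multiset.map_cons, Multiset.prod_cons, norm_mul]
    have ha := hm a (Multiset.mem_cons_self a m)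
    have h1 := hA a ha
    have h2 := ih (fun b hb => hm b (Multiset.mem_cons_of_mem hb))
    have h3 : 0 ≤ m.prod := Multiset.prod_nonneg (fun b hb => hm b (Multiset.mem_cons_of_mem hb))
    calc (a * m.prod) ^ (A + 1) = a ^ (A + 1) * m.prod ^ (A + 1) := mul_pow _ _ _
      _ ≤ (‖z + a‖ * (x + a) ^ A) * (‖(m.map (fun s : ℝ => z + s)).prod‖ *
          (m.map (fun s : ℝ => x + s)).prod ^ A) :=
        mul_le_mul h1 h2 (by positivity) (mul_nonneg (norm_nonneg _) (by positivity))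
      _ = _ := by rw [mul_pow]; ring

/-- derivative of `∏ (z + s)` -/
noncomputable def dprod (m : Multiset ℝ) (z : ℂ) : ℂ :=
  aeval z (derivative ((m.map (fun s : ℝ => X + C s)).prod : ℝ[X]))

lemma dprod_cons (a : ℝ) (m : Multiset ℝ) (z : ℂ) :
    dprod (a ::ₘ m) z = (m.map (fun s : ℝ => z + s)).prod + (z + a) * dprod m z := by
  unfold dprod
  rw [Multiset.map_cons, Multiset.prod_cons, derivative_mul]
  simp only [derivative_X, derivative_C, add_zero, one_mul, map_add, map_mul,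
    aeval_X, aeval_C]
  congr 1
  rw [map_multiset_prod, Multiset.map_map]
  congr 1
  apply Multiset.map_congr rfl
  intro s _
  simp

lemma aeval_prod (m : Multiset ℝ) (z : ℂ) :
    aeval z ((m.map (fun s : ℝ => X + C s)).prod : ℝ[X]) = (m.map (fun s : ℝ => z + s)).prod := by
  rw [map_multiset_prod, Multiset.map_map]
  congr 1
  apply Multiset.map_congr rfl
  intro s _
  simp

lemma dprod_real (m : Multiset ℝ) (x : ℝ) :
    dprod m (x : ℂ) = ((derivative ((m.map (fun s : ℝ => X + C s)).prod : ℝ[X])).eval x : ℝ) := by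
  unfold dprod
  rw [show (x : ℂ) = algebraMap ℝ ℂ x from rfl, aeval_algebraMap_apply]
  simp [aeval_def]

lemma real_prod_cast (m : Multiset ℝ) (x : ℝ) :
    (((m.map (fun s : ℝ => x + s)).prod : ℝ) : ℂ) = (m.map (fun s : ℝ => (x : ℂ) + s)).prod := by
  induction m using Multiset.induction_on with
  | empty => simp
  | cons a m ih =>
    rw [Multiset.map_cons, Multiset.prod_cons, Multiset.map_cons, Multiset.prod_cons, ← ih]
    push_cast
    ring

/-- real derivative values -/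
noncomputable def dprodR (m : Multiset ℝ) (x : ℝ) : ℝ :=
  (derivative ((m.map (fun s : ℝ => X + C s)).prod : ℝ[X])).eval x

lemma dprodR_cons (a : ℝ) (m : Multiset ℝ) (x : ℝ) :
    dprodR (a ::ₘ m) x = (m.map (fun s : ℝ => x + s)).prod + (x + a) * dprodR m x := by
  have h := dprod_cons a m (x : ℂ)
  rw [dprod_real, dprod_real, ← real_prod_cast] at h
  exact_mod_cast h

lemma dprodR_nonneg (m : Multiset ℝ) (hm : ∀ s ∈ m, 0 ≤ s) {x : ℝ} (hx : 0 < x) :
    0 ≤ dprodR m x := by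
  induction m using Multiset.induction_on with
  | empty => simp [dprodR]
  | cons a m ih =>
    rw [dprodR_cons]
    have ha := hm a (Multiset.mem_cons_self a m)
    have hm' := fun b hb => hm b (Multiset.mem_cons_of_mem hb)
    have h1 := prod_pos m hm' hx
    have h2 := ih hm'
    have : 0 ≤ (x + a) * dprodR m x := mul_nonneg (by linarith) h2
    linarith

/-- logarithmic derivative comparison -/
lemma norm_dprod_le (m : Multiset ℝ) (hm : ∀ s ∈ m, 0 ≤ s) {z : ℂ} {x κ : ℝ} (hx : 0 < x)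
    (hκ : 0 < κ) (hsec : ∀ s : ℝ, 0 ≤ s → κ * (x + s) ≤ ‖z + s‖) :
    κ * (‖dprod m z‖ * (m.map (fun s : ℝ => x + s)).prod) ≤
      dprodR m x * ‖(m.map (fun s : ℝ => z + s)).prod‖ := by
  induction m using Multiset.induction_on with
  | empty => simp [dprod, dprodR]
  | cons a m ih =>
    have ha := hm a (Multiset.mem_cons_self a m)
    have hm' := fun b hb => hm b (Multiset.mem_cons_of_mem hb)
    have ih' := ih hm'
    rw [dprod_cons, dprodR_cons, Multiset.map_cons, Multiset.prod_cons, Multiset.map_cons,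
      Multiset.prod_cons, norm_mul]
    set M := (m.map (fun s : ℝ => x + s)).prod with hM
    set Mz := ‖(m.map (fun s : ℝ => z + s)).prod‖ with hMz
    have hM0 : 0 < M := prod_pos m hm' hx
    have hMz0 : 0 ≤ Mz := norm_nonneg _
    have h1 : ‖(m.map (fun s : ℝ => z + s)).prod + (z + a) * dprod m z‖ ≤
        Mz + ‖z + a‖ * ‖dprod m z‖ := by
      refine (norm_add_le _ _).trans ?_
      rw [norm_mul]
    have h2 := hsec a ha
    have hxa : 0 < x + a := by linarith
    calc κ * (‖(m.map (fun s : ℝ => z + s)).prod + (z + a) * dprod m z‖ * ((x + a) * M))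
        ≤ κ * ((Mz + ‖z + a‖ * ‖dprod m z‖) * ((x + a) * M)) := by gcongr
      _ = (κ * (x + a)) * (Mz * M) + (‖z + a‖ * (x + a)) * (κ * (‖dprod m z‖ * M)) := by ring
      _ ≤ ‖z + a‖ * (Mz * M) + (‖z + a‖ * (x + a)) * (dprodR m x * Mz) := by
          gcongr
      _ = _ := by ring

/-- growth comparison along the positive axis -/
lemma prod_exp_ge (m : Multiset ℝ) (hm : ∀ s ∈ m, 0 ≤ s) {x δ : ℝ} (hx : 0 < x) :
    (m.map (fun s : ℝ => x + s)).prod *
      Real.exp (δ * (x * dprodR m x / (m.map (fun s : ℝ => x + s)).prod)) ≤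
      (m.map (fun s : ℝ => x * Real.exp δ + s)).prod := by
  induction m using Multiset.induction_on with
  | empty => simp [dprodR]
  | cons a m ih =>
    have ha := hm a (Multiset.mem_cons_self a m)
    have hm' := fun b hb => hm b (Multiset.mem_cons_of_mem hb)
    have ih' := ih hm'
    rw [dprodR_cons, Multiset.map_cons, Multiset.prod_cons, Multiset.map_cons,
      Multiset.prod_cons]
    set M := (m.map (fun s : ℝ => x + s)).prod with hM
    have hM0 : 0 < M := prod_pos m hm' hx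
    have hxa : 0 < x + a := by linarith
    have e1 : δ * (x * (M + (x + a) * dprodR m x) / ((x + a) * M)) =
        δ * (x / (x + a)) + δ * (x * dprodR m x / M) := by
      field_simp
    rw [e1, Real.exp_add]
    have h1 : (x + a) * Real.exp (δ * (x / (x + a))) ≤ x * Real.exp δ + a := by
      have hconv := convexOn_exp.2 (Set.mem_univ (δ : ℝ)) (Set.mem_univ (0 : ℝ))
        (show 0 ≤ x / (x + a) by positivity) (show 0 ≤ a / (x + a) by positivity)
        (by field_simp)
      simp only [smul_eq_mul, mul_zero, add_zero, Real.exp_zero, mul_one] at hconv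
      rw [mul_comm δ]
      calc (x + a) * Real.exp (x / (x + a) * δ) ≤
          (x + a) * (x / (x + a) * Real.exp δ + a / (x + a)) :=
            mul_le_mul_of_nonneg_left hconv hxa.le
        _ = _ := by field_simp
    calc (x + a) * M * (Real.exp (δ * (x / (x + a))) * Real.exp (δ * (x * dprodR m x / M)))
        = ((x + a) * Real.exp (δ * (x / (x + a)))) * (M * Real.exp (δ * (x * dprodR m x / M))) := by
          ring
      _ ≤ (x * Real.exp δ + a) * (m.map (fun s : ℝ => x * Real.exp δ + s)).prod :=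
          mul_le_mul h1 ih' (by positivity) (by positivity)

/-! ## Sector estimates -/

/-- `‖z + s‖ ≥ cos(θ/2) (x + s)` for `z = x e^{iθ}` -/
lemma sector_lower {x s θ : ℝ} (hx : 0 ≤ x) (hs : 0 ≤ s) (hθ : |θ| ≤ Real.pi) :
    Real.cos (θ / 2) * (x + s) ≤ ‖(x : ℂ) * Complex.exp (θ * I) + s‖ := by
  have hc : 0 ≤ Real.cos (θ / 2) := by
    rw [abs_le] at hθ
    exact Real.cos_nonneg_of_mem_Icc ⟨by linarith [hθ.1], by linarith [hθ.2]⟩
  refine le_of_sq_le_sq ?_ (norm_nonneg _)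
  rw [← Complex.normSq_eq_norm_sq, Complex.normSq_apply, Complex.exp_mul_I]
  simp only [add_re, mul_re, ofReal_re, ofReal_im, add_im, mul_im, I_re, I_im, zero_mul,
    mul_zero, mul_one, sub_zero, add_zero, zero_add, ← Complex.ofReal_cos, ← Complex.ofReal_sin]
  have h1 : Real.cos θ = 2 * Real.cos (θ / 2) ^ 2 - 1 := by
    rw [← Real.cos_two_mul]; congr 1; ring
  have h2 := Real.sin_sq_add_cos_sq θ
  have h3 := Real.cos_sq_le_one (θ / 2)
  have h4 : (x * Real.cos θ + s) * (x * Real.cos θ + s) + x * Real.sin θ * (x * Real.sin θ) -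
      (Real.cos (θ / 2) * (x + s)) ^ 2 = (1 - Real.cos (θ / 2) ^ 2) * (x - s) ^ 2 := by
    linear_combination x ^ 2 * h2 + 2 * x * s * h1
  have h5 : 0 ≤ (1 - Real.cos (θ / 2) ^ 2) * (x - s) ^ 2 :=
    mul_nonneg (sub_nonneg.2 h3) (sq_nonneg _)
  linarith

lemma factor_power {z : ℂ} {x κ : ℝ} {A : ℕ} (hz : ‖z‖ = x)
    (hsec : ∀ s : ℝ, 0 ≤ s → κ * (x + s) ≤ ‖z + s‖) (hA2 : 2 ≤ A) (hA : (2 / 3 : ℝ) ^ A ≤ κ) :
    ∀ s : ℝ, 0 ≤ s → s ^ (A + 1) ≤ ‖z + s‖ * (x + s) ^ A := by
  intro s hs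
  have hx : 0 ≤ x := by rw [← hz]; exact norm_nonneg _
  rcases le_or_gt (2 * x) s with h | h
  · -- `x ≤ s / 2`
    have h1 : s - x ≤ ‖z + s‖ := by
      have h3 : ‖(s : ℂ)‖ ≤ ‖z + s‖ + ‖z‖ := by
        calc ‖(s : ℂ)‖ = ‖(z + s) - z‖ := by congr 1; ring
          _ ≤ _ := norm_sub_le _ _
      rw [Complex.norm_real, Real.norm_eq_abs, abs_of_nonneg hs, hz] at h3
      linarith
    obtain ⟨B, rfl⟩ : ∃ B, A = B + 2 := ⟨A - 2, by omega⟩
    have h4 : s ^ 3 ≤ (s - x) * (x + s) ^ 2 := by nlinarith [mul_nonneg hx hs, mul_nonneg hx hx]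
    calc s ^ (B + 2 + 1) = s ^ 3 * s ^ B := by ring
      _ ≤ ((s - x) * (x + s) ^ 2) * (x + s) ^ B := by
          apply mul_le_mul h4 (pow_le_pow_left₀ hs (by linarith) B) (by positivity)
          exact mul_nonneg (by linarith) (by positivity)
      _ = (s - x) * (x + s) ^ (B + 2) := by ring
      _ ≤ _ := mul_le_mul_of_nonneg_right h1 (by positivity)
  · -- `x > s / 2`
    have h1 := hsec s hs
    have h2 : (2 / 3 : ℝ) ^ A * (x + s) ≤ ‖z + s‖ :=
      (mul_le_mul_of_nonneg_right hA (by linarith)).trans h1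
    have h3 : s ≤ 2 / 3 * (x + s) := by linarith
    calc s ^ (A + 1) = s ^ A * s := pow_succ _ _
      _ ≤ (2 / 3 * (x + s)) ^ A * (x + s) := by
          apply mul_le_mul (pow_le_pow_left₀ hs h3 A) (by linarith) hs (by positivity)
      _ = ((2 / 3 : ℝ) ^ A * (x + s)) * (x + s) ^ A := by rw [mul_pow]; ring
      _ ≤ _ := mul_le_mul_of_nonneg_right h2 (by positivity)

end Pool.Agent.H49.LeRoy
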