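import Mathlib
import Pool.Agent.H49.LeRoyProd
import Pool.Agent.H49.PowerForm

open Polynomial Finset Filter Topology Complex

namespace Pool.Agent.H49.LeRoy

open Pool.Agent.H49.PowerForm Pool.Agent.H49.RR

/-! ## The Le Roy function -/

/-- coefficients `1 / (k!)^r` -/
noncomputable def lc (r : ℝ) (k : ℕ) : ℝ := (1 / (k.factorial : ℝ)) ^ r

lemma lc_pos (r : ℝ) (k : ℕ) : 0 < lc r k := by
  unfold lc
  have : (0 : ℝ) < k.factorial := by exact_mod_cast Nat.factorial_pos k
  positivity

lemma lc_zero (r : ℝ) : lc r 0 = 1 := by simp [lc]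

lemma lc_succ (r : ℝ) (k : ℕ) : lc r (k + 1) = lc r k * (1 / ((k : ℝ) + 1)) ^ r := by
  unfold lc
  have h : (0 : ℝ) < k.factorial := by exact_mod_cast Nat.factorial_pos k
  rw [Nat.factorial_succ, ← Real.mul_rpow (by positivity) (by positivity)]
  congr 1
  push_cast
  field_simp

lemma summable_lc {r : ℝ} (hr : 0 < r) {R : ℝ} (hR : 0 ≤ R) :
    Summable (fun k => lc r k * R ^ k) := by
  rcases eq_or_lt_of_le hR with rfl | hR
  · refine summable_of_ne_finset_zero (s := {0}) (fun k hk => ?_)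
    have : k ≠ 0 := by simpa using hk
    simp [this]
  · have hlim : Tendsto (fun k : ℕ => (1 / ((k : ℝ) + 1)) ^ r * R) atTop (𝓝 (0 * R)) := by
      refine Tendsto.mul_const R ?_
      have h1 : Tendsto (fun k : ℕ => 1 / ((k : ℝ) + 1)) atTop (𝓝 0) :=
        tendsto_one_div_add_atTop_nhds_zero_nat
      have h2 := h1.rpow_const (p := r) (Or.inr hr.le)
      rwa [Real.zero_rpow hr.ne'] at h2
    rw [zero_mul] at hlim
    refine summable_of_ratio_test_tendsto_lt_one (l := 0) (by norm_num) ?_ ?_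
    · filter_upwards with k
      have := lc_pos r k
      positivity
    · refine hlim.congr (fun k => ?_)
      have h1 := lc_pos r k
      have h2 := lc_pos r (k + 1)
      rw [Real.norm_of_nonneg (by positivity), Real.norm_of_nonneg (by positivity), lc_succ,
        pow_succ]
      field_simp

/-- a power series with infinite radius of convergence is entire -/
lemma hasDerivAt_series {c : ℕ → ℂ} (hc : ∀ R : ℝ, 0 ≤ R → Summable (fun k => ‖c k‖ * R ^ k))
    (z : ℂ) : HasDerivAt (fun z => ∑' k, c k * z ^ k) (∑' k, c k * (k * z ^ (k - 1))) z := by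
  set R := ‖z‖ + 1 with hR
  have hR0 : 0 ≤ R := by positivity
  have hz : z ∈ Metric.ball (0 : ℂ) R := by
    rw [mem_ball_zero_iff, hR]; linarith
  have hdiff : ∀ i : ℕ, DifferentiableOn ℂ (fun z : ℂ => c i * z ^ i) (Metric.ball (0 : ℂ) R) :=
    fun i => by fun_prop
  have hle : ∀ (i : ℕ) (w : ℂ), w ∈ Metric.ball (0 : ℂ) R → ‖c i * w ^ i‖ ≤ ‖c i‖ * R ^ i := by
    intro i w hw
    rw [norm_mul, norm_pow]
    rw [mem_ball_zero_iff] at hw
    gcongr
  have h1 := differentiableOn_tsum_of_summable_norm (hc R hR0) hdiff Metric.isOpen_ball hle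
  have h2 := hasSum_deriv_of_summable_norm (hc R hR0) hdiff Metric.isOpen_ball hle hz
  have h3 := (h1.differentiableAt (Metric.isOpen_ball.mem_nhds hz)).hasDerivAt
  have h4 : deriv (fun w => ∑' i, c i * w ^ i) z = ∑' k, c k * (k * z ^ (k - 1)) := by
    rw [← h2.tsum_eq]
    refine tsum_congr (fun k => ?_)
    rw [deriv_const_mul _ (by fun_prop), deriv_pow_field]
  rwa [h4] at h3

/-- the Le Roy function -/
noncomputable def leroy (r : ℝ) (z : ℂ) : ℂ := ∑' k, (lc r k : ℂ) * z ^ k

/-- `z f'(z)` for the Le Roy function -/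
noncomputable def leroyD (r : ℝ) (z : ℂ) : ℂ := ∑' k : ℕ, ((k : ℂ) * lc r k) * z ^ k

lemma norm_lc (r : ℝ) (k : ℕ) : ‖(lc r k : ℂ)‖ = lc r k := by
  rw [Complex.norm_real, Real.norm_of_nonneg (lc_pos r k).le]

lemma summable_norm_lc {r : ℝ} (hr : 0 < r) {R : ℝ} (hR : 0 ≤ R) :
    Summable (fun k => ‖(lc r k : ℂ)‖ * R ^ k) := by
  simp only [norm_lc]
  exact summable_lc hr hR

lemma summable_norm_klc {r : ℝ} (hr : 0 < r) {R : ℝ} (hR : 0 ≤ R) :
    Summable (fun k : ℕ => ‖((k : ℂ) * lc r k)‖ * R ^ k) := by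
  refine Summable.of_nonneg_of_le (fun k => by positivity) (fun k => ?_)
    (summable_lc hr (R := 2 * R) (by positivity))
  rw [norm_mul, norm_lc, Complex.norm_natCast, mul_pow]
  have h1 : (k : ℝ) ≤ 2 ^ k := by exact_mod_cast (Nat.lt_two_pow_self).le
  have h2 := lc_pos r k
  calc (k : ℝ) * lc r k * R ^ k = lc r k * (k * R ^ k) := by ring
    _ ≤ lc r k * (2 ^ k * R ^ k) := by gcongr

lemma differentiable_leroy {r : ℝ} (hr : 0 < r) : Differentiable ℂ (leroy r) :=
  fun z => (hasDerivAt_series (fun _ hR => summable_norm_lc hr hR) z).differentiableAt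

lemma differentiable_leroyD {r : ℝ} (hr : 0 < r) : Differentiable ℂ (leroyD r) :=
  fun z => (hasDerivAt_series (fun _ hR => summable_norm_klc hr hR) z).differentiableAt

lemma leroyD_eq {r : ℝ} (z : ℂ) :
    z * (∑' k : ℕ, (lc r k : ℂ) * (k * z ^ (k - 1))) = leroyD r z := by
  unfold leroyD
  rw [← tsum_mul_left]
  refine tsum_congr (fun k => ?_)
  cases k with
  | zero => simp
  | succ k =>
    simp only [Nat.add_sub_cancel, pow_succ]
    ring

/-- derivative of `ζ ↦ f(e^ζ)` -/
lemma hasDerivAt_leroy_exp {r : ℝ} (hr : 0 < r) (ζ : ℂ) :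
    HasDerivAt (fun ζ => leroy r (Complex.exp ζ)) (leroyD r (Complex.exp ζ)) ζ := by
  have h1 := hasDerivAt_series (fun R hR => summable_norm_lc hr hR) (Complex.exp ζ)
  have h2 := h1.comp ζ (Complex.hasDerivAt_exp ζ)
  rw [mul_comm, leroyD_eq] at h2
  exact h2

/-! ## Approximation by entrywise powers of `(1 + x/n)^n` -/

/-- coefficients of the `r`-th entrywise power of `(1 + x/n)^n` -/
noncomputable def pc (r : ℝ) (n k : ℕ) : ℝ := (1 * (n.choose k : ℝ) * (1 / (n : ℝ)) ^ k) ^ r

lemma pc_nonneg (r : ℝ) (n k : ℕ) : 0 ≤ pc r n k := by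
  unfold pc; positivity

lemma pc_le {r : ℝ} (hr : 0 < r) {n : ℕ} (hn : 0 < n) (k : ℕ) : pc r n k ≤ lc r k := by
  unfold pc lc
  have hn' : (0 : ℝ) < n := by exact_mod_cast hn
  refine Real.rpow_le_rpow (by positivity) ?_ hr.le
  have h := Nat.choose_le_pow_div (α := ℝ) k n
  calc 1 * (n.choose k : ℝ) * (1 / (n : ℝ)) ^ k ≤ 1 * ((n : ℝ) ^ k / k.factorial) * (1 / (n : ℝ)) ^ k := by
        gcongr
    _ = 1 / k.factorial := by
        rw [one_div, inv_pow]
        field_simp

lemma tendsto_pc {r : ℝ} (hr : 0 < r) (k : ℕ) :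
    Tendsto (fun n => pc r n k) atTop (𝓝 (lc r k)) := by
  unfold pc lc
  refine Tendsto.rpow_const ?_ (Or.inr hr.le)
  induction k with
  | zero => simp
  | succ k ih =>
    have h1 : Tendsto (fun n : ℕ => ((n : ℝ) - k) / n * (1 / ((k : ℝ) + 1))) atTop
        (𝓝 (1 * (1 / ((k : ℝ) + 1)))) := by
      refine Tendsto.mul_const _ ?_
      have h2 : Tendsto (fun n : ℕ => 1 - (k : ℝ) / n) atTop (𝓝 (1 - 0)) :=
        tendsto_const_nhds.sub (tendsto_const_div_atTop_nhds_zero_nat _)
      rw [sub_zero] at h2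
      refine h2.congr' ?_
      filter_upwards [eventually_gt_atTop 0] with n hn
      have : (n : ℝ) ≠ 0 := by exact_mod_cast hn.ne'
      field_simp
    have h2 := ih.mul h1
    have h3 : 1 / (k.factorial : ℝ) * (1 * (1 / ((k : ℝ) + 1))) = 1 / ((k + 1).factorial : ℝ) := by
      rw [Nat.factorial_succ]; push_cast; field_simp
    rw [h3] at h2
    refine h2.congr' ?_
    filter_upwards [eventually_gt_atTop (k + 1)] with n hn
    have hn0 : (n : ℝ) ≠ 0 := by
      have : 0 < n := by omega
      exact_mod_cast this.ne'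
    have h4 : ((n.choose (k + 1) : ℝ)) * (k + 1) = n.choose k * ((n : ℝ) - k) := by
      have := Nat.choose_succ_right_eq n k
      have h5 := congrArg (Nat.cast : ℕ → ℝ) this
      push_cast [Nat.cast_sub (show k ≤ n by omega)] at h5
      exact h5
    have h6 : ((n.choose (k + 1) : ℝ)) = n.choose k * ((n : ℝ) - k) / (k + 1) := by
      field_simp
      linarith
    rw [h6, pow_succ]
    field_simp

/-- the approximating polynomials -/
noncomputable def appr (r : ℝ) (n : ℕ) : ℝ[X] :=
  entrywise (fun t => t ^ r) (testPoly 1 (1 / (n : ℝ)) n)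

lemma coeff_appr {r : ℝ} (hr : 0 < r) {n : ℕ} (hn : 0 < n) (k : ℕ) :
    (appr r n).coeff k = pc r n k := by
  unfold appr pc
  have hn' : (0 : ℝ) < n := by exact_mod_cast hn
  exact coeff_entrywise_testPoly (F := fun t => t ^ r) (Real.zero_rpow hr.ne') one_pos
    (by positivity) n k

lemma natDegree_appr_le (r : ℝ) (n : ℕ) : (appr r n).natDegree ≤ n := by
  unfold appr
  rw [natDegree_le_iff_coeff_eq_zero]
  intro k hk
  rw [coeff_entrywise, if_neg]
  intro h
  have h2 : (testPoly 1 (1 / (n : ℝ)) n).natDegree ≤ n := by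
    rw [natDegree_le_iff_coeff_eq_zero]
    intro k hk
    rw [coeff_testPoly, Nat.choose_eq_zero_of_lt hk]
    simp
  omega

lemma aeval_appr {r : ℝ} (hr : 0 < r) {n : ℕ} (hn : 0 < n) (z : ℂ) :
    aeval z (appr r n) = ∑' k, (pc r n k : ℂ) * z ^ k := by
  rw [tsum_eq_sum (s := range (n + 1)), aeval_eq_sum_range' (n := n + 1)
    (Nat.lt_succ_of_le (natDegree_appr_le r n))]
  · refine Finset.sum_congr rfl (fun k _ => ?_)
    rw [coeff_appr hr hn, Algebra.smul_def]
    rfl
  · intro k hk
    rw [Finset.mem_range, not_lt] at hk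
    unfold pc
    rw [Nat.choose_eq_zero_of_lt (by omega)]
    simp [Real.zero_rpow hr.ne']

lemma aeval_derivative_appr {r : ℝ} (hr : 0 < r) {n : ℕ} (hn : 0 < n) (z : ℂ) :
    z * aeval z (derivative (appr r n)) = ∑' k : ℕ, ((k : ℂ) * pc r n k) * z ^ k := by
  have h1 : z * aeval z (derivative (appr r n)) = aeval z (X * derivative (appr r n)) := by simp
  have hco : ∀ k, (X * derivative (appr r n)).coeff k = k * pc r n k := by
    intro k
    cases k with
    | zero => simp
    | succ k =>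
      rw [coeff_X_mul, coeff_derivative, coeff_appr hr hn]
      push_cast
      ring
  rw [h1, tsum_eq_sum (s := range (n + 1)), aeval_eq_sum_range' (n := n + 1)]
  · refine Finset.sum_congr rfl (fun k _ => ?_)
    rw [hco, Algebra.smul_def]
    simp
  · refine Nat.lt_succ_of_le ?_
    rw [natDegree_le_iff_coeff_eq_zero]
    intro k hk
    rw [hco]
    unfold pc
    rw [Nat.choose_eq_zero_of_lt hk]
    simp [Real.zero_rpow hr.ne']
  · intro k hk
    rw [Finset.mem_range, not_lt] at hk
    unfold pc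
    rw [Nat.choose_eq_zero_of_lt (by omega)]
    simp [Real.zero_rpow hr.ne']

lemma tendsto_appr {r : ℝ} (hr : 0 < r) (z : ℂ) :
    Tendsto (fun n => aeval z (appr r n)) atTop (𝓝 (leroy r z)) := by
  have h1 : Tendsto (fun n => ∑' k, (pc r n k : ℂ) * z ^ k) atTop (𝓝 (leroy r z)) := by
    refine tendsto_tsum_of_dominated_convergence (summable_norm_lc hr (norm_nonneg z)) ?_ ?_
    · intro k
      refine Tendsto.mul_const _ ?_
      exact (Complex.continuous_ofReal.tendsto _).comp (tendsto_pc hr k)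
    · filter_upwards [eventually_gt_atTop 0] with n hn k
      rw [norm_mul, norm_pow, norm_lc, Complex.norm_real, Real.norm_of_nonneg (pc_nonneg r n k)]
      gcongr
      exact pc_le hr hn k
  refine h1.congr' ?_
  filter_upwards [eventually_gt_atTop 0] with n hn
  rw [aeval_appr hr hn]

lemma tendsto_appr_derivative {r : ℝ} (hr : 0 < r) (z : ℂ) :
    Tendsto (fun n => z * aeval z (derivative (appr r n))) atTop (𝓝 (leroyD r z)) := by
  have h1 : Tendsto (fun n => ∑' k : ℕ, ((k : ℂ) * pc r n k) * z ^ k) atTop (𝓝 (leroyD r z)) := by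
    refine tendsto_tsum_of_dominated_convergence (summable_norm_klc hr (norm_nonneg z)) ?_ ?_
    · intro k
      refine Tendsto.mul_const _ (Tendsto.const_mul _ ?_)
      exact (Complex.continuous_ofReal.tendsto _).comp (tendsto_pc hr k)
    · filter_upwards [eventually_gt_atTop 0] with n hn k
      rw [norm_mul, norm_pow, norm_mul, norm_mul, norm_lc, Complex.norm_real,
        Real.norm_of_nonneg (pc_nonneg r n k)]
      gcongr
      exact pc_le hr hn k
  refine h1.congr' ?_
  filter_upwards [eventually_gt_atTop 0] with n hn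
  rw [aeval_derivative_appr hr hn]

end Pool.Agent.H49.LeRoy
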