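import Mathlib
import Pool.Agent.H49.LeRoyFun

open Polynomial Finset Filter Topology Complex

namespace Pool.Agent.H49.LeRoy

open Pool.Agent.H49.PowerForm Pool.Agent.H49.RR

/-! ## Inequalities for the Le Roy function inherited from real-rooted approximants -/

lemma exists_factorization {P : ℝ[X]} (hP : RealRooted P) (hnn : ∀ k, 0 ≤ P.coeff k)
    (h0 : P.coeff 0 = 1) : ∃ (L : ℝ) (m : Multiset ℝ), 0 < L ∧ (∀ s ∈ m, 0 ≤ s) ∧
      P = C L * (m.map (fun s => X + C s)).prod ∧ L * m.prod = 1 := by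
  have hP0 : P ≠ 0 := by
    intro h; rw [h] at h0; simp at h0
  have hs := hP.splits.eq_prod_roots
  have hr := roots_nonpos hP0 hnn
  have e : P = C P.leadingCoeff * ((P.roots.map (fun a => -a)).map (fun s => X + C s)).prod := by
    conv_lhs => rw [hs]
    congr 2
    rw [Multiset.map_map]
    apply Multiset.map_congr rfl
    intro a _
    simp [sub_eq_add_neg]
  refine ⟨P.leadingCoeff, P.roots.map (fun a => -a), leadingCoeff_pos hP0 hnn, ?_, e, ?_⟩
  · intro s hs
    obtain ⟨a, ha, rfl⟩ := Multiset.mem_map.1 hs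
    have := hr a ha
    linarith
  · have h1 : P.eval 0 = 1 := by rw [← coeff_zero_eq_eval_zero, h0]
    rw [e] at h1
    rw [eval_mul, eval_C, eval_multiset_prod, Multiset.map_map] at h1
    have h2 : ((P.roots.map (fun a => -a)).map ((eval 0) ∘ fun s => X + C s)) =
        P.roots.map (fun a => -a) := by
      conv_rhs => rw [← Multiset.map_id (P.roots.map (fun a => -a))]
      apply Multiset.map_congr rfl
      intro s _
      simp
    rw [h2] at h1
    exact h1

variable {r : ℝ}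

/-- real values of the Le Roy function -/
noncomputable def leroyR (r x : ℝ) : ℝ := ∑' k, lc r k * x ^ k

/-- real values of `x f'(x)` -/
noncomputable def leroyDR (r x : ℝ) : ℝ := ∑' k : ℕ, (k : ℝ) * lc r k * x ^ k

lemma leroy_ofReal (r x : ℝ) : leroy r (x : ℂ) = (leroyR r x : ℂ) := by
  unfold leroy leroyR
  rw [Complex.ofReal_tsum]
  refine tsum_congr (fun k => ?_)
  push_cast
  ring

lemma leroyD_ofReal (r x : ℝ) : leroyD r (x : ℂ) = (leroyDR r x : ℂ) := by
  unfold leroyD leroyDR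
  rw [Complex.ofReal_tsum]
  refine tsum_congr (fun k => ?_)
  push_cast
  ring

lemma leroyR_ge_one (hr : 0 < r) {x : ℝ} (hx : 0 ≤ x) : 1 ≤ leroyR r x := by
  unfold leroyR
  have h := (summable_lc hr hx).le_tsum 0 (fun k _ => by have := lc_pos r k; positivity)
  simpa [lc_zero] using h

lemma leroyDR_nonneg {x : ℝ} (hx : 0 ≤ x) : 0 ≤ leroyDR r x :=
  tsum_nonneg (fun k => by have := lc_pos r k; positivity)

lemma tendsto_eval_appr (hr : 0 < r) (x : ℝ) :
    Tendsto (fun n => (appr r n).eval x) atTop (𝓝 (leroyR r x)) := by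
  have h1 := tendsto_appr hr (x : ℂ)
  rw [leroy_ofReal] at h1
  have h2 := (Complex.continuous_re.tendsto _).comp h1
  rw [Complex.ofReal_re] at h2
  refine h2.congr (fun n => ?_)
  simp only [Function.comp]
  rw [show (x : ℂ) = algebraMap ℝ ℂ x from rfl, aeval_algebraMap_apply]
  simp [aeval_def]

lemma tendsto_eval_derivative_appr (hr : 0 < r) (x : ℝ) :
    Tendsto (fun n => x * (derivative (appr r n)).eval x) atTop (𝓝 (leroyDR r x)) := by
  have h1 := tendsto_appr_derivative hr (x : ℂ)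
  rw [leroyD_ofReal] at h1
  have h2 := (Complex.continuous_re.tendsto _).comp h1
  rw [Complex.ofReal_re] at h2
  refine h2.congr (fun n => ?_)
  simp only [Function.comp]
  rw [show (x : ℂ) = algebraMap ℝ ℂ x from rfl, aeval_algebraMap_apply]
  simp [aeval_def]

lemma appr_structure (hr : 0 < r) {n : ℕ} (hn : 0 < n) (h : RealRooted (appr r n)) :
    ∃ (L : ℝ) (m : Multiset ℝ), 0 < L ∧ (∀ s ∈ m, 0 ≤ s) ∧ L * m.prod = 1 ∧
      (∀ z : ℂ, aeval z (appr r n) = L * (m.map (fun s : ℝ => z + s)).prod) ∧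
      (∀ z : ℂ, aeval z (derivative (appr r n)) = L * dprod m z) ∧
      (∀ x : ℝ, (appr r n).eval x = L * (m.map (fun s : ℝ => x + s)).prod) ∧
      (∀ x : ℝ, (derivative (appr r n)).eval x = L * dprodR m x) := by
  obtain ⟨L, m, hL, hm, e, h1⟩ := exists_factorization h
    (fun k => by rw [coeff_appr hr hn]; exact pc_nonneg r n k)
    (by rw [coeff_appr hr hn]; simp [pc])
  refine ⟨L, m, hL, hm, h1, ?_, ?_, ?_, ?_⟩
  · intro z
    rw [e, map_mul, aeval_C, aeval_prod]
    rfl
  · intro z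
    rw [e, derivative_C_mul, map_mul, aeval_C]
    rfl
  · intro x
    rw [e, eval_mul, eval_C, eval_multiset_prod, Multiset.map_map]
    congr 2
    apply Multiset.map_congr rfl
    intro s _
    simp
  · intro x
    rw [e, derivative_C_mul, eval_mul, eval_C]
    rfl

variable (hr : 0 < r) (hrr : ∀ n, 0 < n → RealRooted (appr r n))
include hr hrr

lemma norm_leroy_neg_le {z : ℂ} {x : ℝ} (hz : ‖z‖ = x) :
    ‖leroy r (-(x : ℂ))‖ ≤ ‖leroy r z‖ := by
  refine le_of_tendsto_of_tendsto (tendsto_appr hr (-(x : ℂ))).norm (tendsto_appr hr z).norm ?_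
  filter_upwards [eventually_gt_atTop 0] with n hn
  obtain ⟨L, m, hL, hm, _, e, _, _, _⟩ := appr_structure hr hn (hrr n hn)
  rw [e, e, norm_mul, norm_mul]
  exact mul_le_mul_of_nonneg_left (norm_prod_lower m hm hz) (norm_nonneg _)

lemma norm_leroy_le {z : ℂ} {x : ℝ} (hz : ‖z‖ = x) : ‖leroy r z‖ ≤ leroyR r x := by
  refine le_of_tendsto_of_tendsto (tendsto_appr hr z).norm (tendsto_eval_appr hr x) ?_
  filter_upwards [eventually_gt_atTop 0] with n hn
  obtain ⟨L, m, hL, hm, _, e, _, e2, _⟩ := appr_structure hr hn (hrr n hn)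
  rw [e, e2, norm_mul, Complex.norm_real, Real.norm_of_nonneg hL.le]
  exact mul_le_mul_of_nonneg_left (norm_prod_upper m hm hz) hL.le

lemma one_le_norm_leroy {z : ℂ} {x : ℝ} (hx : 0 ≤ x) {A : ℕ}
    (hA : ∀ s : ℝ, 0 ≤ s → s ^ (A + 1) ≤ ‖z + s‖ * (x + s) ^ A) :
    1 ≤ ‖leroy r z‖ * leroyR r x ^ A := by
  refine ge_of_tendsto ((tendsto_appr hr z).norm.mul ((tendsto_eval_appr hr x).pow A)) ?_
  filter_upwards [eventually_gt_atTop 0] with n hn
  obtain ⟨L, m, hL, hm, h1, e, _, e2, _⟩ := appr_structure hr hn (hrr n hn)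
  rw [e, e2, norm_mul, Complex.norm_real, Real.norm_of_nonneg hL.le]
  have h2 := norm_prod_lower' m hm hx hA
  calc (1 : ℝ) = (L * m.prod) ^ (A + 1) := by rw [h1, one_pow]
    _ = L ^ (A + 1) * m.prod ^ (A + 1) := mul_pow _ _ _
    _ ≤ L ^ (A + 1) * (‖(m.map (fun s : ℝ => z + s)).prod‖ *
      (m.map (fun s : ℝ => x + s)).prod ^ A) := mul_le_mul_of_nonneg_left h2 (by positivity)
    _ = _ := by rw [mul_pow]; ring

lemma norm_leroyD_le {z : ℂ} {x κ : ℝ} (hz : ‖z‖ = x) (hx : 0 < x) (hκ : 0 < κ)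
    (hsec : ∀ s : ℝ, 0 ≤ s → κ * (x + s) ≤ ‖z + s‖) :
    κ * (‖leroyD r z‖ * leroyR r x) ≤ leroyDR r x * ‖leroy r z‖ := by
  refine le_of_tendsto_of_tendsto
    (((tendsto_appr_derivative hr z).norm.mul (tendsto_eval_appr hr x)).const_mul κ)
    ((tendsto_eval_derivative_appr hr x).mul (tendsto_appr hr z).norm) ?_
  filter_upwards [eventually_gt_atTop 0] with n hn
  obtain ⟨L, m, hL, hm, _, e, e1, e2, e3⟩ := appr_structure hr hn (hrr n hn)
  rw [e, e1, e2, e3]
  simp only [norm_mul]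
  rw [Complex.norm_real, Real.norm_of_nonneg hL.le, hz]
  have h2 := norm_dprod_le m hm hx hκ hsec
  calc κ * (x * (L * ‖dprod m z‖) * (L * (m.map (fun s : ℝ => x + s)).prod)) =
      (x * L * L) * (κ * (‖dprod m z‖ * (m.map (fun s : ℝ => x + s)).prod)) := by ring
    _ ≤ (x * L * L) * (dprodR m x * ‖(m.map (fun s : ℝ => z + s)).prod‖) :=
        mul_le_mul_of_nonneg_left h2 (by positivity)
    _ = _ := by ring

lemma leroyR_exp_ge {x δ : ℝ} (hx : 0 < x) :
    leroyR r x * Real.exp (δ * (leroyDR r x / leroyR r x)) ≤ leroyR r (x * Real.exp δ) := by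
  have hpos : 0 < leroyR r x := lt_of_lt_of_le one_pos (leroyR_ge_one hr hx.le)
  refine le_of_tendsto_of_tendsto
    ((tendsto_eval_appr hr x).mul (Real.continuous_exp.tendsto _ |>.comp
      (((tendsto_eval_derivative_appr hr x).div (tendsto_eval_appr hr x) hpos.ne').const_mul δ)))
    (tendsto_eval_appr hr (x * Real.exp δ)) ?_
  filter_upwards [eventually_gt_atTop 0] with n hn
  obtain ⟨L, m, hL, hm, _, _, _, e2, e3⟩ := appr_structure hr hn (hrr n hn)
  simp only [Function.comp, Pi.div_apply]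
  rw [e2, e2, e3]
  have h2 := prod_exp_ge m hm (δ := δ) hx
  have h3 := prod_pos m hm hx
  have h4 : x * (L * dprodR m x) / (L * (m.map (fun s : ℝ => x + s)).prod) =
      x * dprodR m x / (m.map (fun s : ℝ => x + s)).prod := by
    field_simp
  rw [h4, mul_assoc]
  exact mul_le_mul_of_nonneg_left h2 hL.le

end Pool.Agent.H49.LeRoy
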