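import Mathlib
import Pool.Agent.H49.LeRoyIneq

open Polynomial Finset Filter Topology Complex

namespace Pool.Agent.H49.LeRoy

open Pool.Agent.H49.PowerForm Pool.Agent.H49.RR

variable {r : ℝ}

/-! ## Growth on the positive axis -/

lemma leroyR_le_exp (hr : 1 ≤ r) {y : ℝ} (hy : 0 ≤ y) : leroyR r (y ^ r) ≤ Real.exp (r * y) := by
  have hr0 : 0 < r := by linarith
  set u : ℕ → ℝ := fun k => y ^ k / k.factorial with hu
  have hu0 : ∀ k, 0 ≤ u k := fun k => by positivity
  have hsum : HasSum u (Real.exp y) := by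
    have := NormedSpace.expSeries_div_hasSum_exp (𝔸 := ℝ) y
    rwa [← Real.exp_eq_exp_ℝ] at this
  have hule : ∀ k, u k ≤ Real.exp y := fun k => by
    have := hsum.summable.le_tsum k (fun j _ => hu0 j)
    rwa [hsum.tsum_eq] at this
  have e : ∀ k, lc r k * (y ^ r) ^ k = u k ^ r := by
    intro k
    simp only [hu, lc]
    rw [← Real.rpow_natCast, ← Real.rpow_mul hy, mul_comm r, Real.rpow_mul hy, Real.rpow_natCast,
      ← Real.mul_rpow (by positivity) (by positivity)]
    congr 1
    ring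
  have h1 : ∀ k, u k ^ r ≤ u k * Real.exp y ^ (r - 1) := by
    intro k
    rcases eq_or_lt_of_le (hu0 k) with h | h
    · rw [← h, Real.zero_rpow hr0.ne', zero_mul]
    · calc u k ^ r = u k ^ (1 + (r - 1)) := by congr 1; ring
        _ = u k * u k ^ (r - 1) := by rw [Real.rpow_add h, Real.rpow_one]
        _ ≤ _ := by
          refine mul_le_mul_of_nonneg_left ?_ h.le
          exact Real.rpow_le_rpow h.le (hule k) (by linarith)
  have h2 : Summable (fun k => u k * Real.exp y ^ (r - 1)) := hsum.summable.mul_right _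
  have h3 : Summable (fun k => u k ^ r) :=
    Summable.of_nonneg_of_le (fun k => by have := hu0 k; positivity) h1 h2
  unfold leroyR
  simp only [e]
  calc ∑' k, u k ^ r ≤ ∑' k, u k * Real.exp y ^ (r - 1) := h3.tsum_le_tsum h1 h2
    _ = Real.exp y * Real.exp y ^ (r - 1) := by rw [tsum_mul_right, hsum.tsum_eq]
    _ = Real.exp (r * y) := by
      rw [← Real.exp_mul, ← Real.exp_add]
      congr 1
      ring

lemma log_factorial_le (k : ℕ) (hk : 1 ≤ k) :
    Real.log k.factorial ≤ 1 + Real.log k + k * Real.log k - k := by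
  induction k, hk using Nat.le_induction with
  | base => simp
  | succ k hk ih =>
    have hk0 : (0 : ℝ) < k := by exact_mod_cast hk
    have hf : (0 : ℝ) < k.factorial := by exact_mod_cast Nat.factorial_pos k
    rw [Nat.factorial_succ]
    push_cast
    rw [Real.log_mul (by positivity) hf.ne']
    have h1 : 1 / ((k : ℝ) + 1) ≤ Real.log (((k : ℝ) + 1) / k) := by
      have := Real.one_sub_inv_le_log_of_pos (show 0 < ((k : ℝ) + 1) / k by positivity)
      refine le_trans (le_of_eq ?_) this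
      field_simp
      ring
    rw [Real.log_div (by positivity) hk0.ne'] at h1
    have h2 : 1 ≤ ((k : ℝ) + 1) * (Real.log ((k : ℝ) + 1) - Real.log k) := by
      calc (1 : ℝ) = ((k : ℝ) + 1) * (1 / ((k : ℝ) + 1)) := by field_simp
        _ ≤ _ := mul_le_mul_of_nonneg_left h1 (by positivity)
    nlinarith

lemma exp_le_leroyR (hr : 1 ≤ r) {y : ℝ} (hy : 1 ≤ y) :
    Real.exp (r * (y - 2 - Real.log y)) ≤ leroyR r (y ^ r) := by
  have hr0 : 0 < r := by linarith
  have hy0 : 0 < y := by linarith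
  set k := ⌊y⌋₊ with hk
  have hk1 : 1 ≤ k := by rw [hk]; exact Nat.le_floor (by exact_mod_cast hy)
  have hk0 : (0 : ℝ) < k := by exact_mod_cast hk1
  have hky : (k : ℝ) ≤ y := Nat.floor_le hy0.le
  have hky1 : y < k + 1 := Nat.lt_floor_add_one y
  have h1 : lc r k * (y ^ r) ^ k ≤ leroyR r (y ^ r) :=
    (summable_lc hr0 (by positivity)).le_tsum k (fun j _ => by have := lc_pos r j; positivity)
  refine le_trans ?_ h1
  have hf : (0 : ℝ) < k.factorial := by exact_mod_cast Nat.factorial_pos k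
  have e : lc r k * (y ^ r) ^ k = (y ^ k / k.factorial) ^ r := by
    simp only [lc]
    rw [← Real.rpow_natCast, ← Real.rpow_mul hy0.le, mul_comm r, Real.rpow_mul hy0.le,
      Real.rpow_natCast, ← Real.mul_rpow (by positivity) (by positivity)]
    congr 1
    ring
  rw [e, ← Real.log_le_log_iff (Real.exp_pos _) (by positivity), Real.log_exp,
    Real.log_rpow (by positivity), Real.log_div (by positivity) hf.ne', Real.log_pow]
  refine mul_le_mul_of_nonneg_left ?_ hr0.le
  have h2 := log_factorial_le k hk1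
  have h3 : Real.log k ≤ Real.log y := Real.log_le_log hk0 hky
  have h4 : (k : ℝ) * Real.log k ≤ k * Real.log y := mul_le_mul_of_nonneg_left h3 hk0.le
  linarith

/-- `Q(s) = x f'(x)/f(x)` at `x = e^s` -/
noncomputable def QR (r s : ℝ) : ℝ := leroyDR r (Real.exp s) / leroyR r (Real.exp s)

lemma QR_nonneg (hr : 0 < r) (s : ℝ) : 0 ≤ QR r s :=
  div_nonneg (leroyDR_nonneg (Real.exp_pos s).le)
    (le_trans zero_le_one (leroyR_ge_one hr (Real.exp_pos s).le))

lemma leroyR_exp_le (hr : 1 ≤ r) (s : ℝ) :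
    Real.log (leroyR r (Real.exp s)) ≤ r * Real.exp (s / r) := by
  have hr0 : 0 < r := by linarith
  have h1 := leroyR_le_exp hr (Real.exp_pos (s / r)).le
  rw [← Real.exp_mul, div_mul_cancel₀ _ hr0.ne'] at h1
  have h2 := leroyR_ge_one hr0 (Real.exp_pos s).le
  rw [Real.log_le_iff_le_exp (by linarith)]
  exact h1

lemma leroyR_exp_ge' (hr : 1 ≤ r) {s : ℝ} (hs : 0 ≤ s) :
    r * Real.exp (s / r) - 2 * r - s ≤ Real.log (leroyR r (Real.exp s)) := by
  have hr0 : 0 < r := by linarith
  have h1 := exp_le_leroyR hr (Real.one_le_exp (show 0 ≤ s / r by positivity))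
  rw [← Real.exp_mul, div_mul_cancel₀ _ hr0.ne', Real.log_exp] at h1
  have h2 := leroyR_ge_one hr0 (Real.exp_pos s).le
  rw [Real.le_log_iff_exp_le (by linarith)]
  refine le_trans (le_of_eq ?_) h1
  congr 1
  field_simp

section

variable (hr : 1 ≤ r) (hrr : ∀ n, 0 < n → RealRooted (appr r n))
include hr hrr

lemma QR_le (s δ : ℝ) :
    δ * QR r s ≤ Real.log (leroyR r (Real.exp (s + δ))) - Real.log (leroyR r (Real.exp s)) := by
  have hr0 : 0 < r := by linarith
  have h1 := leroyR_exp_ge hr0 hrr (δ := δ) (Real.exp_pos s)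
  have h2 := leroyR_ge_one hr0 (Real.exp_pos s).le
  have h3 : 0 < leroyR r (Real.exp s) := by linarith
  rw [← Real.exp_add] at h1
  have h4 := Real.log_le_log (by positivity) h1
  rw [Real.log_mul h3.ne' (Real.exp_pos _).ne', Real.log_exp] at h4
  unfold QR
  linarith

/-- asymptotics of `Q` on the real axis -/
lemma abs_QR_sub_le {s : ℝ} (hs : 0 ≤ s) :
    |QR r s * Real.exp (-(s / r)) - 1| ≤ (1 + 2 * r + s) * Real.exp (-(s / (2 * r))) := by
  have hr0 : 0 < r := by linarith
  set E := Real.exp (s / r) with hE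
  set δ := Real.exp (-(s / (2 * r))) with hδ
  have hE1 : 1 ≤ E := Real.one_le_exp (by positivity)
  have hE0 : 0 < E := by linarith
  have hδ0 : 0 < δ := Real.exp_pos _
  have hδ1 : δ ≤ 1 := Real.exp_le_one_iff.2 (by have : 0 ≤ s / (2 * r) := by positivity
                                                linarith)
  have hEδ : E * δ ^ 2 = 1 := by
    rw [hE, hδ, ← Real.exp_nat_mul, ← Real.exp_add]
    rw [Real.exp_eq_one_iff]
    push_cast
    field_simp
    ring
  have hinv : Real.exp (-(s / r)) = δ ^ 2 := by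
    rw [Real.exp_neg, ← hE]
    field_simp
    linarith
  have hup := QR_le hr hrr s δ
  have hlo := QR_le hr hrr s (-δ)
  have u1 := leroyR_exp_le hr (s + δ)
  have u2 := leroyR_exp_le hr (s + -δ)
  have l1 := leroyR_exp_ge' hr hs
  have l2 := leroyR_exp_le hr s
  have e1 : Real.exp ((s + δ) / r) = E * Real.exp (δ / r) := by
    rw [hE, ← Real.exp_add]; congr 1; ring
  have e2 : Real.exp ((s + -δ) / r) = E * Real.exp (-(δ / r)) := by
    rw [hE, ← Real.exp_add]; congr 1; ring
  rw [e1] at u1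
  rw [e2] at u2
  set t := δ / r with ht
  have ht0 : 0 < t := by positivity
  have ht1 : t ≤ 1 := by rw [ht, div_le_one hr0]; linarith
  have hrt : r * t = δ := by rw [ht]; field_simp
  have b1 : Real.exp t ≤ 1 + t + t ^ 2 := by
    have := Real.abs_exp_sub_one_sub_id_le (show |t| ≤ 1 by rw [abs_of_pos ht0]; exact ht1)
    have := (abs_le.1 this).2
    linarith
  have b2 : Real.exp (-t) ≤ 1 - t + t ^ 2 := by
    have := Real.abs_exp_sub_one_sub_id_le (show |-t| ≤ 1 by rw [abs_neg, abs_of_pos ht0]; exact ht1)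
    have := (abs_le.1 this).2
    linarith
  have hrt2 : r * t ^ 2 ≤ δ ^ 2 := by
    have : r * t ^ 2 = δ * t := by rw [← hrt]; ring
    rw [this]
    have : t ≤ δ := by rw [ht]; exact div_le_self hδ0.le hr
    nlinarith
  have f1 : δ * QR r s ≤ E * δ + E * δ ^ 2 + 2 * r + s := by
    have : r * (E * Real.exp t) ≤ r * E + E * δ + E * δ ^ 2 := by
      calc r * (E * Real.exp t) ≤ r * (E * (1 + t + t ^ 2)) := by gcongr
        _ = r * E + E * (r * t) + E * (r * t ^ 2) := by ring
        _ ≤ r * E + E * δ + E * δ ^ 2 := by rw [hrt]; gcongr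
    linarith
  have f2 : E * δ - E * δ ^ 2 - 2 * r - s ≤ δ * QR r s := by
    have : r * (E * Real.exp (-t)) ≤ r * E - E * δ + E * δ ^ 2 := by
      calc r * (E * Real.exp (-t)) ≤ r * (E * (1 - t + t ^ 2)) := by gcongr
        _ = r * E - E * (r * t) + E * (r * t ^ 2) := by ring
        _ ≤ r * E - E * δ + E * δ ^ 2 := by rw [hrt]; gcongr
    linarith
  rw [hEδ] at f1 f2
  have hEδ' : E * δ = 1 / δ := by
    field_simp
    linarith
  rw [hEδ'] at f1 f2
  rw [hinv, abs_le]
  have g1 : δ * QR r s * δ ≤ (1 / δ + 1 + 2 * r + s) * δ := mul_le_mul_of_nonneg_right f1 hδ0.le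
  have g2 : (1 / δ - 1 - 2 * r - s) * δ ≤ δ * QR r s * δ := mul_le_mul_of_nonneg_right f2 hδ0.le
  have g3 : 1 / δ * δ = 1 := by field_simp
  constructor <;> nlinarith

end

end Pool.Agent.H49.LeRoy
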