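import Mathlib
import Pool.Agent.H49.LeRoyGrowth

open Polynomial Finset Filter Topology Complex

namespace Pool.Agent.H49.LeRoy

open Pool.Agent.H49.PowerForm Pool.Agent.H49.RR

variable {r : ℝ}

/-! ## The logarithmic derivative in a horizontal strip -/

lemma exp_sector {Θ : ℝ} (hΘ : Θ < Real.pi) {ζ : ℂ} (hζ : |ζ.im| ≤ Θ) {t : ℝ} (ht : 0 ≤ t) :
    Real.cos (Θ / 2) * (Real.exp ζ.re + t) ≤ ‖Complex.exp ζ + t‖ := by
  have h0 : 0 ≤ Θ := le_trans (abs_nonneg _) hζ
  have h1 := sector_lower (x := Real.exp ζ.re) (s := t) (θ := ζ.im) (Real.exp_pos _).le ht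
    (hζ.trans hΘ.le)
  have h2 : Complex.exp ζ = (Real.exp ζ.re : ℂ) * Complex.exp (ζ.im * I) := by
    conv_lhs => rw [← Complex.re_add_im ζ, Complex.exp_add]
    rw [Complex.ofReal_exp]
  rw [← h2] at h1
  refine le_trans (mul_le_mul_of_nonneg_right ?_ (by positivity)) h1
  rw [← Real.cos_abs (ζ.im / 2)]
  refine Real.cos_le_cos_of_nonneg_of_le_pi (abs_nonneg _) (by linarith [Real.pi_pos]) ?_
  rw [abs_div, abs_two]
  linarith

lemma cos_half_pos {Θ : ℝ} (hΘ0 : 0 ≤ Θ) (hΘ : Θ < Real.pi) : 0 < Real.cos (Θ / 2) :=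
  Real.cos_pos_of_mem_Ioo ⟨by linarith [Real.pi_pos], by linarith⟩

/-- `h(ζ) = f'(e^ζ) e^ζ / f(e^ζ) * e^{-ζ/r} - 1` -/
noncomputable def hh (r : ℝ) (ζ : ℂ) : ℂ :=
  leroyD r (Complex.exp ζ) / leroy r (Complex.exp ζ) * Complex.exp (-(ζ / r)) - 1

lemma QR_bounded_neg (hr : 0 < r) : ∃ C, 0 ≤ C ∧ ∀ s ≤ 0, QR r s ≤ C * Real.exp s := by
  refine ⟨∑' k : ℕ, (k : ℝ) * lc r k, tsum_nonneg (fun k => by have := lc_pos r k; positivity), ?_⟩
  intro s hs
  have hx1 : Real.exp s ≤ 1 := Real.exp_le_one_iff.2 hs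
  have hx0 := (Real.exp_pos s).le
  have hsum : Summable (fun k : ℕ => (k : ℝ) * lc r k) := by
    have := summable_norm_klc hr (R := 1) zero_le_one
    refine this.congr (fun k => ?_)
    rw [norm_mul, norm_lc, Complex.norm_natCast, one_pow, mul_one]
  have h1 := leroyR_ge_one hr hx0
  have hterm : ∀ k : ℕ, (k : ℝ) * lc r k * Real.exp s ^ k ≤ (k : ℝ) * lc r k * Real.exp s := by
    intro k
    cases k with
    | zero => simp
    | succ k =>
      have := lc_pos r (k + 1)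
      have h2 : Real.exp s ^ (k + 1) ≤ Real.exp s := by
        calc Real.exp s ^ (k + 1) ≤ Real.exp s ^ 1 :=
              pow_le_pow_of_le_one hx0 hx1 (by omega)
          _ = Real.exp s := pow_one _
      gcongr
  have h2 : leroyDR r (Real.exp s) ≤ (∑' k : ℕ, (k : ℝ) * lc r k) * Real.exp s := by
    unfold leroyDR
    rw [← tsum_mul_right]
    refine Summable.tsum_le_tsum hterm ?_ (hsum.mul_right _)
    exact Summable.of_nonneg_of_le (fun k => by have := lc_pos r k; positivity) hterm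
      (hsum.mul_right _)
  unfold QR
  calc leroyDR r (Real.exp s) / leroyR r (Real.exp s) ≤ leroyDR r (Real.exp s) / 1 := by
        exact div_le_div_of_nonneg_left (leroyDR_nonneg hx0) one_pos h1
    _ ≤ _ := by rw [div_one]; exact h2

lemma mul_exp_neg_le {c s : ℝ} (hc : 0 < c) : s * Real.exp (-(s / c)) ≤ c := by
  have h1 : s / c ≤ Real.exp (s / c) := by
    have := Real.add_one_le_exp (s / c)
    linarith
  rw [Real.exp_neg]
  have h2 : 0 < Real.exp (s / c) := Real.exp_pos _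
  rw [← div_eq_mul_inv, div_le_iff₀ h2]
  calc s = c * (s / c) := by field_simp
    _ ≤ c * Real.exp (s / c) := by gcongr

section

variable (hr : 1 ≤ r) (hrr : ∀ n, 0 < n → RealRooted (appr r n))
include hr hrr

lemma QR_bounded : ∃ K, 0 ≤ K ∧ ∀ s, QR r s * Real.exp (-(s / r)) ≤ K := by
  have hr0 : 0 < r := by linarith
  obtain ⟨C, hC0, hC⟩ := QR_bounded_neg hr0
  refine ⟨C + (2 + 4 * r), by positivity, fun s => ?_⟩
  rcases le_total s 0 with hs | hs
  · have h1 := hC s hs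
    calc QR r s * Real.exp (-(s / r)) ≤ (C * Real.exp s) * Real.exp (-(s / r)) := by gcongr
      _ = C * Real.exp (s * (1 - 1 / r)) := by
        rw [mul_assoc, ← Real.exp_add]; congr 2; ring
      _ ≤ C * 1 := by
        refine mul_le_mul_of_nonneg_left ?_ hC0
        rw [Real.exp_le_one_iff]
        have : 0 ≤ 1 - 1 / r := by
          rw [sub_nonneg, div_le_one hr0]; exact hr
        nlinarith
      _ ≤ _ := by linarith
  · have h1 := (abs_le.1 (abs_QR_sub_le hr hrr hs)).2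
    have h2 := mul_exp_neg_le (c := 2 * r) (s := s) (by positivity)
    have h3 : Real.exp (-(s / (2 * r))) ≤ 1 := Real.exp_le_one_iff.2 (by
      have : 0 ≤ s / (2 * r) := by positivity
      linarith)
    have h4 : (1 + 2 * r + s) * Real.exp (-(s / (2 * r))) ≤ 1 + 4 * r := by
      calc (1 + 2 * r + s) * Real.exp (-(s / (2 * r))) =
          (1 + 2 * r) * Real.exp (-(s / (2 * r))) + s * Real.exp (-(s / (2 * r))) := by ring
        _ ≤ (1 + 2 * r) * 1 + 2 * r := by gcongr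
        _ = _ := by ring
    linarith

lemma leroy_exp_ne_zero {ζ : ℂ} (hζ : |ζ.im| < Real.pi) : leroy r (Complex.exp ζ) ≠ 0 := by
  have hr0 : 0 < r := by linarith
  set κ := Real.cos (|ζ.im| / 2) with hκ
  have hκ0 : 0 < κ := cos_half_pos (abs_nonneg _) hζ
  obtain ⟨A, hA⟩ := exists_pow_lt_of_lt_one hκ0 (show (2 / 3 : ℝ) < 1 by norm_num)
  have hA' : (2 / 3 : ℝ) ^ (A + 2) ≤ κ := by
    refine le_trans ?_ hA.le
    exact pow_le_pow_of_le_one (by norm_num) (by norm_num) (by omega)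
  have h1 := factor_power (z := Complex.exp ζ) (x := Real.exp ζ.re) (κ := κ) (A := A + 2)
    (Complex.norm_exp ζ) (fun s hs => exp_sector hζ le_rfl hs) (by omega) hA'
  have h2 := one_le_norm_leroy hr0 hrr (Real.exp_pos ζ.re).le h1
  intro h
  rw [h, norm_zero, zero_mul] at h2
  linarith

lemma norm_logDeriv_le {Θ : ℝ} (hΘ0 : 0 ≤ Θ) (hΘ : Θ < Real.pi) {ζ : ℂ} (hζ : |ζ.im| ≤ Θ) :
    ‖leroyD r (Complex.exp ζ) / leroy r (Complex.exp ζ)‖ ≤ QR r ζ.re / Real.cos (Θ / 2) := by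
  have hr0 : 0 < r := by linarith
  have hκ0 := cos_half_pos hΘ0 hΘ
  have hne := leroy_exp_ne_zero hr hrr (lt_of_le_of_lt hζ hΘ)
  have h1 := norm_leroyD_le hr0 hrr (z := Complex.exp ζ) (x := Real.exp ζ.re)
    (Complex.norm_exp ζ) (Real.exp_pos _) hκ0 (fun s hs => exp_sector hΘ hζ hs)
  have h2 : 0 < leroyR r (Real.exp ζ.re) :=
    lt_of_lt_of_le one_pos (leroyR_ge_one hr0 (Real.exp_pos _).le)
  have h3 : 0 < ‖leroy r (Complex.exp ζ)‖ := norm_pos_iff.2 hne
  unfold QR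
  rw [norm_div, div_div, div_le_div_iff₀ h3 (by positivity)]
  linarith

lemma norm_hh_le {Θ : ℝ} (hΘ0 : 0 ≤ Θ) (hΘ : Θ < Real.pi) :
    ∃ C, 0 ≤ C ∧ ∀ ζ : ℂ, |ζ.im| ≤ Θ → ‖hh r ζ‖ ≤ C := by
  have hr0 : 0 < r := by linarith
  obtain ⟨K, hK0, hK⟩ := QR_bounded hr hrr
  have hκ0 := cos_half_pos hΘ0 hΘ
  refine ⟨K / Real.cos (Θ / 2) + 1, by positivity, fun ζ hζ => ?_⟩
  unfold hh
  refine (norm_sub_le _ _).trans ?_
  rw [norm_one, norm_mul]
  have h1 := norm_logDeriv_le hr hrr hΘ0 hΘ hζ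
  have h2 : ‖Complex.exp (-(ζ / r))‖ = Real.exp (-(ζ.re / r)) := by
    rw [Complex.norm_exp]
    congr 1
    rw [Complex.neg_re, Complex.div_ofReal_re]
  rw [h2]
  have h3 := hK ζ.re
  calc ‖leroyD r (Complex.exp ζ) / leroy r (Complex.exp ζ)‖ * Real.exp (-(ζ.re / r)) + 1
      ≤ QR r ζ.re / Real.cos (Θ / 2) * Real.exp (-(ζ.re / r)) + 1 := by gcongr
    _ = QR r ζ.re * Real.exp (-(ζ.re / r)) / Real.cos (Θ / 2) + 1 := by ring
    _ ≤ K / Real.cos (Θ / 2) + 1 := by gcongr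

lemma norm_hh_real {ζ : ℂ} (h0 : ζ.im = 0) (hs : 0 ≤ ζ.re) :
    ‖hh r ζ‖ ≤ (1 + 6 * r) * Real.exp (-(ζ.re / (4 * r))) := by
  have hr0 : 0 < r := by linarith
  set s := ζ.re with hsdef
  have hζ : ζ = (s : ℂ) := by
    apply Complex.ext <;> simp [hsdef, h0]
  have e : hh r ζ = ((QR r s * Real.exp (-(s / r)) - 1 : ℝ) : ℂ) := by
    unfold hh QR
    rw [hζ, ← Complex.ofReal_exp, leroyD_ofReal, leroy_ofReal]
    push_cast
    rfl
  rw [e, Complex.norm_real, Real.norm_eq_abs]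
  refine (abs_QR_sub_le hr hrr hs).trans ?_
  have h1 : Real.exp (-(s / (2 * r))) = Real.exp (-(s / (4 * r))) * Real.exp (-(s / (4 * r))) := by
    rw [← Real.exp_add]; congr 1; field_simp; ring
  rw [h1, ← mul_assoc]
  refine mul_le_mul_of_nonneg_right ?_ (Real.exp_pos _).le
  have h2 := mul_exp_neg_le (c := 4 * r) (s := s) (by positivity)
  have h3 : Real.exp (-(s / (4 * r))) ≤ 1 := Real.exp_le_one_iff.2 (by
    have : 0 ≤ s / (4 * r) := by positivity
    linarith)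
  calc (1 + 2 * r + s) * Real.exp (-(s / (4 * r))) =
      (1 + 2 * r) * Real.exp (-(s / (4 * r))) + s * Real.exp (-(s / (4 * r))) := by ring
    _ ≤ (1 + 2 * r) * 1 + 4 * r := by gcongr
    _ = _ := by ring

lemma differentiableAt_hh {ζ : ℂ} (hζ : |ζ.im| < Real.pi) : DifferentiableAt ℂ (hh r) ζ := by
  have hr0 : 0 < r := by linarith
  unfold hh
  have h1 : DifferentiableAt ℂ (fun ζ => leroyD r (Complex.exp ζ)) ζ :=
    ((differentiable_leroyD hr0).comp Complex.differentiable_exp).differentiableAt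
  have h2 : DifferentiableAt ℂ (fun ζ => leroy r (Complex.exp ζ)) ζ :=
    ((differentiable_leroy hr0).comp Complex.differentiable_exp).differentiableAt
  exact ((h1.div h2 (leroy_exp_ne_zero hr hrr hζ)).mul (by fun_prop)).sub_const 1

/-- Phragmén–Lindelöf: decay of `h` inside the strip -/
lemma hh_decay {Θ : ℝ} (hΘ0 : 0 < Θ) (hΘ : Θ < Real.pi) :
    ∃ C, 0 ≤ C ∧ ∀ ζ : ℂ, 0 ≤ ζ.im → ζ.im ≤ Θ →
      ‖hh r ζ‖ ≤ C * Real.exp (-(1 / (4 * r) * (ζ.re * (1 - ζ.im / Θ)))) := by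
  have hr0 : 0 < r := by linarith
  obtain ⟨C₀, hC₀, hb⟩ := norm_hh_le hr hrr hΘ0.le hΘ
  set ε := 1 / (4 * r) with hε
  have hε0 : 0 < ε := by positivity
  have hε1 : ε ≤ 1 := by rw [hε, div_le_one (by positivity)]; linarith
  set g : ℂ → ℂ := fun ζ => hh r ζ * Complex.exp (ε * (ζ + I * ζ ^ 2 / (2 * Θ))) with hg
  have hre : ∀ ζ : ℂ, ((ε : ℂ) * (ζ + I * ζ ^ 2 / (2 * Θ))).re = ε * (ζ.re * (1 - ζ.im / Θ)) := by
    intro ζ
    have e1 : (2 * (Θ : ℂ)) = ((2 * Θ : ℝ) : ℂ) := by push_cast; ring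
    rw [Complex.re_ofReal_mul, Complex.add_re, e1, Complex.div_ofReal_re]
    congr 1
    simp only [pow_two, mul_re, mul_im, I_re, I_im]
    field_simp
    ring
  have hnorm : ∀ ζ : ℂ, ‖g ζ‖ = ‖hh r ζ‖ * Real.exp (ε * (ζ.re * (1 - ζ.im / Θ))) := by
    intro ζ
    simp only [hg]
    rw [norm_mul, Complex.norm_exp, hre]
  set C := C₀ + (1 + 6 * r) with hC
  have hmain : ∀ ζ : ℂ, 0 ≤ ζ.im → ζ.im ≤ Θ → ‖g ζ‖ ≤ C := by
    intro ζ hζ0 hζ1
    refine PhragmenLindelof.horizontal_strip (a := 0) (b := Θ) ?_ ?_ ?_ ?_ hζ0 hζ1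
    · refine DifferentiableOn.diffContOnCl (fun w hw => ?_)
      have hw' : w ∈ im ⁻¹' Set.Icc 0 Θ := by
        have h1 : closure (im ⁻¹' Set.Ioo 0 Θ) ⊆ im ⁻¹' Set.Icc 0 Θ :=
          closure_minimal (Set.preimage_mono Set.Ioo_subset_Icc_self)
            (isClosed_Icc.preimage Complex.continuous_im)
        exact h1 hw
      have h2 : |w.im| < Real.pi := by
        rw [abs_of_nonneg hw'.1]; exact lt_of_le_of_lt hw'.2 hΘ
      refine ((differentiableAt_hh hr hrr h2).mul ?_).differentiableWithinAt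
      fun_prop
    · refine ⟨1, ?_, 1, ?_⟩
      · rw [sub_zero, lt_div_iff₀ hΘ0]; linarith
      · refine Asymptotics.IsBigO.of_bound C₀ ?_
        have hmem : im ⁻¹' Set.Ioo 0 Θ ∈ comap (_root_.abs ∘ re) atTop ⊓ 𝓟 (im ⁻¹' Set.Ioo 0 Θ) :=
          mem_inf_of_right (mem_principal_self _)
        filter_upwards [hmem] with w hw
        have hw1 : 0 < w.im := hw.1
        have hw2 : w.im < Θ := hw.2
        rw [hnorm, Real.norm_of_nonneg (Real.exp_pos _).le]
        have h3 : ‖hh r w‖ ≤ C₀ := hb w (by rw [abs_of_pos hw1]; exact hw2.le)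
        have h4 : ε * (w.re * (1 - w.im / Θ)) ≤ 1 * Real.exp (1 * |w.re|) := by
          have h5 : 0 ≤ 1 - w.im / Θ := by rw [sub_nonneg, div_le_one hΘ0]; exact hw2.le
          have h6 : 1 - w.im / Θ ≤ 1 := by have : 0 ≤ w.im / Θ := by positivity
                                           linarith
          have h7 : w.re * (1 - w.im / Θ) ≤ |w.re| := by
            calc w.re * (1 - w.im / Θ) ≤ |w.re| * (1 - w.im / Θ) :=
                  mul_le_mul_of_nonneg_right (le_abs_self _) h5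
              _ ≤ |w.re| * 1 := mul_le_mul_of_nonneg_left h6 (abs_nonneg _)
              _ = |w.re| := mul_one _
          have h8 := Real.add_one_le_exp |w.re|
          have h9 : ε * (w.re * (1 - w.im / Θ)) ≤ ε * |w.re| :=
            mul_le_mul_of_nonneg_left h7 hε0.le
          have h10 : ε * |w.re| ≤ 1 * |w.re| := mul_le_mul_of_nonneg_right hε1 (abs_nonneg _)
          rw [one_mul, one_mul]
          linarith
        exact mul_le_mul h3 (Real.exp_le_exp.2 h4) (Real.exp_pos _).le hC₀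
    · intro w hw
      rw [hnorm, hw, zero_div, sub_zero, mul_one]
      rcases le_total w.re 0 with hs | hs
      · have h3 : ‖hh r w‖ ≤ C₀ := hb w (by rw [hw, abs_zero]; exact hΘ0.le)
        have h4 : Real.exp (ε * w.re) ≤ 1 := Real.exp_le_one_iff.2 (by nlinarith)
        calc ‖hh r w‖ * Real.exp (ε * w.re) ≤ C₀ * 1 := by gcongr
          _ ≤ C := by rw [hC]; linarith
      · have h3 := norm_hh_real hr hrr hw hs
        calc ‖hh r w‖ * Real.exp (ε * w.re) ≤
            ((1 + 6 * r) * Real.exp (-(w.re / (4 * r)))) * Real.exp (ε * w.re) := by gcongr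
          _ = 1 + 6 * r := by
            rw [mul_assoc, ← Real.exp_add]
            have : -(w.re / (4 * r)) + ε * w.re = 0 := by rw [hε]; ring
            rw [this, Real.exp_zero, mul_one]
          _ ≤ C := by rw [hC]; linarith
    · intro w hw
      rw [hnorm, hw, div_self hΘ0.ne', sub_self, mul_zero, mul_zero, Real.exp_zero, mul_one]
      have h3 : ‖hh r w‖ ≤ C₀ := hb w (by rw [hw, abs_of_pos hΘ0])
      rw [hC]; linarith
  refine ⟨C, by positivity, fun ζ hζ0 hζ1 => ?_⟩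
  have h1 := hmain ζ hζ0 hζ1
  rw [hnorm] at h1
  rw [Real.exp_neg, ← div_eq_mul_inv, le_div_iff₀ (Real.exp_pos _)]
  exact h1

end

end Pool.Agent.H49.LeRoy
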