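import Mathlib
import Pool.Agent.H49.LeRoyStrip

open Polynomial Finset Filter Topology Complex

namespace Pool.Agent.H49.LeRoy

open Pool.Agent.H49.PowerForm Pool.Agent.H49.RR

variable {r : ℝ}

section

variable (hr : 1 ≤ r) (hrr : ∀ n, 0 < n → RealRooted (appr r n))
include hr hrr

/-- upper bound along a ray -/
lemma ray_bound {Θ₁ Θ C : ℝ} (h1 : 0 < Θ₁) (h12 : Θ₁ < Θ) (hΘ : Θ < Real.pi) (hC0 : 0 ≤ C)
    (hC : ∀ ζ : ℂ, 0 ≤ ζ.im → ζ.im ≤ Θ →
      ‖hh r ζ‖ ≤ C * Real.exp (-(1 / (4 * r) * (ζ.re * (1 - ζ.im / Θ))))) {s : ℝ} (hs : 0 ≤ s) :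
    ‖leroy r (Complex.exp (s + Θ₁ * I))‖ ≤
      Real.exp (r * Real.exp (s / r) * Real.cos (Θ₁ / r) +
        Real.exp (s / r) * (C * Real.exp (-(1 / (4 * r) * (s * (1 - Θ₁ / Θ))))) * Θ₁) := by
  have hr0 : 0 < r := by linarith
  have hΘ0 : 0 < Θ := h1.trans h12
  set K := Real.exp (s / r) * (C * Real.exp (-(1 / (4 * r) * (s * (1 - Θ₁ / Θ))))) with hK
  set E : ℝ → ℂ := fun θ => leroy r (Complex.exp (s + θ * I)) *
    Complex.exp (-(r * (Complex.exp ((s + θ * I) / r) - Real.exp (s / r)))) with hE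
  set E' : ℝ → ℂ := fun θ => E θ * (I * (Complex.exp ((s + θ * I) / r) * hh r (s + θ * I))) with hE'
  have hderiv : ∀ θ : ℝ, |θ| < Real.pi → HasDerivAt E (E' θ) θ := by
    intro θ hθ
    have hne : leroy r (Complex.exp (s + θ * I)) ≠ 0 :=
      leroy_exp_ne_zero hr hrr (by simpa using hθ)
    have d0 : HasDerivAt (fun θ : ℝ => (s : ℂ) + θ * I) I θ := by
      have := ((Complex.ofRealCLM.hasDerivAt (x := θ)).mul_const I).const_add (s : ℂ)
      simpa using this
    have d1 : HasDerivAt (fun θ : ℝ => leroy r (Complex.exp (s + θ * I)))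
        (leroyD r (Complex.exp (s + θ * I)) * I) θ :=
      HasDerivAt.comp (h₂ := fun ζ => leroy r (Complex.exp ζ)) (h := fun θ : ℝ => (s : ℂ) + θ * I)
        θ (hasDerivAt_leroy_exp hr0 _) d0
    have d2 : HasDerivAt (fun θ : ℝ => Complex.exp ((s + θ * I) / r))
        (Complex.exp ((s + θ * I) / r) * (I / r)) θ := (d0.div_const (r : ℂ)).cexp
    have d3 : HasDerivAt (fun θ : ℝ => Complex.exp (-(r * (Complex.exp ((s + θ * I) / r) -
        Real.exp (s / r))))) (Complex.exp (-(r * (Complex.exp ((s + θ * I) / r) -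
        Real.exp (s / r)))) * (-(r * (Complex.exp ((s + θ * I) / r) * (I / r))))) θ :=
      (((d2.sub_const (Real.exp (s / r) : ℂ)).const_mul (r : ℂ)).neg).cexp
    have d4 := d1.mul d3
    refine d4.congr_deriv ?_
    simp only [hE', hE]
    unfold hh
    have hrc : (r : ℂ) ≠ 0 := by exact_mod_cast hr0.ne'
    have e1 : Complex.exp ((s + θ * I) / r) * Complex.exp (-((s + θ * I) / r)) = 1 := by
      rw [← Complex.exp_add, add_neg_cancel, Complex.exp_zero]
    set X := Complex.exp ((s + θ * I) / r)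
    set Y := Complex.exp (-((s + θ * I) / r))
    set F := leroy r (Complex.exp (s + θ * I))
    set D := leroyD r (Complex.exp (s + θ * I))
    set W := Complex.exp (-(r * (X - Real.exp (s / r))))
    have e2 : X * (D / F * Y - 1) = D / F - X := by
      calc X * (D / F * Y - 1) = (X * Y) * (D / F) - X := by ring
        _ = D / F - X := by rw [e1, one_mul]
    rw [e2]
    field_simp
    ring
  have hbound : ∀ θ ∈ Set.Ico 0 Θ₁, ‖E' θ‖ ≤ K * ‖E θ‖ + 0 := by
    intro θ hθ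
    have e0 : ‖E' θ‖ = ‖Complex.exp ((s + θ * I) / r)‖ * ‖hh r (s + θ * I)‖ * ‖E θ‖ := by
      simp only [hE']
      rw [norm_mul (E θ), norm_mul I, norm_mul (Complex.exp _), Complex.norm_I, one_mul, mul_comm]
    rw [e0, add_zero]
    refine mul_le_mul_of_nonneg_right ?_ (norm_nonneg _)
    have e1 : ‖Complex.exp ((s + θ * I) / r)‖ = Real.exp (s / r) := by
      rw [Complex.norm_exp, Complex.div_ofReal_re]
      simp
    rw [e1, hK]
    refine mul_le_mul_of_nonneg_left ?_ (Real.exp_pos _).le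
    have e2 := hC (s + θ * I) (by simpa using hθ.1) (by simpa using (hθ.2.le.trans h12.le))
    refine e2.trans ?_
    refine mul_le_mul_of_nonneg_left ?_ hC0
    rw [Real.exp_le_exp, neg_le_neg_iff]
    simp only [add_re, ofReal_re, mul_re, I_re, mul_zero, ofReal_im, I_im, mul_one, sub_self,
      add_zero, add_im, mul_im, zero_add]
    refine mul_le_mul_of_nonneg_left ?_ (by positivity)
    refine mul_le_mul_of_nonneg_left ?_ hs
    have : θ / Θ ≤ Θ₁ / Θ := by gcongr; exact hθ.2.le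
    linarith
  have hgr := norm_le_gronwallBound_of_norm_deriv_right_le (f := E) (f' := E') (δ := ‖E 0‖)
    (K := K) (ε := 0) (a := 0) (b := Θ₁)
    (fun θ hθ => (hderiv θ (by rw [abs_of_nonneg hθ.1]; linarith [hθ.2])).continuousAt.continuousWithinAt)
    (fun θ hθ => (hderiv θ (by rw [abs_of_nonneg hθ.1]; linarith [hθ.2])).hasDerivWithinAt)
    le_rfl hbound Θ₁ ⟨h1.le, le_rfl⟩
  rw [gronwallBound_ε0, sub_zero] at hgr
  have hE0 : ‖E 0‖ ≤ Real.exp (r * Real.exp (s / r)) := by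
    simp only [hE]
    have e1 : Complex.exp (((s : ℂ) + ((0 : ℝ) : ℂ) * I) / r) = (Real.exp (s / r) : ℂ) := by
      push_cast
      simp
    rw [e1, sub_self, mul_zero, neg_zero, Complex.exp_zero, mul_one]
    have e2 : ‖Complex.exp ((s : ℂ) + ((0 : ℝ) : ℂ) * I)‖ = Real.exp s := by
      rw [Complex.norm_exp]; simp
    have h3 := norm_leroy_le hr0 hrr e2
    refine h3.trans ?_
    have h4 := leroyR_exp_le hr s
    have h5 : 0 < leroyR r (Real.exp s) :=
      lt_of_lt_of_le one_pos (leroyR_ge_one hr0 (Real.exp_pos s).le)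
    rwa [Real.log_le_iff_le_exp h5] at h4
  have hE1 : ‖E Θ₁‖ = ‖leroy r (Complex.exp (s + Θ₁ * I))‖ *
      Real.exp (r * Real.exp (s / r) - r * Real.exp (s / r) * Real.cos (Θ₁ / r)) := by
    simp only [hE]
    rw [norm_mul]
    congr 1
    rw [Complex.norm_exp]
    congr 1
    have e1 : ((s : ℂ) + Θ₁ * I) / r = ((s / r : ℝ) : ℂ) + ((Θ₁ / r : ℝ) : ℂ) * I := by
      push_cast; ring
    rw [e1, Complex.exp_add, Complex.exp_mul_I, ← Complex.ofReal_exp]
    simp only [neg_re, mul_re, ofReal_re, ofReal_im, sub_re, add_re, mul_im, I_re, I_im, add_im,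
      zero_mul, mul_zero, mul_one, sub_zero, add_zero, ← Complex.ofReal_cos, ← Complex.ofReal_sin]
    ring
  rw [hE1] at hgr
  have hfin : ‖leroy r (Complex.exp (s + Θ₁ * I))‖ *
      Real.exp (r * Real.exp (s / r) - r * Real.exp (s / r) * Real.cos (Θ₁ / r)) ≤
      Real.exp (r * Real.exp (s / r)) * Real.exp (K * Θ₁) :=
    hgr.trans (mul_le_mul_of_nonneg_right hE0 (Real.exp_pos _).le)
  rw [← Real.exp_add, ← le_div_iff₀ (Real.exp_pos _), ← Real.exp_sub] at hfin
  refine hfin.trans (le_of_eq ?_)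
  congr 1
  ring

/-- If the approximants are real-rooted and `1 < r < 2`, the Le Roy function decays rapidly on the
negative axis. -/
lemma leroy_neg_decay (hr2 : r < 2) :
    ∃ x₀, 1 ≤ x₀ ∧ ∀ x : ℝ, x₀ ≤ x → ‖leroy r (-(x : ℂ))‖ ≤ x⁻¹ ^ 3 := by
  have hr0 : 0 < r := by linarith
  have hπ := Real.pi_pos
  set Θ₁ := (Real.pi * r / 2 + Real.pi) / 2 with hΘ₁
  set Θ := (Θ₁ + Real.pi) / 2 with hΘ
  have a1 : Real.pi * r / 2 < Real.pi := by nlinarith
  have a2 : Real.pi * r / 2 < Θ₁ := by rw [hΘ₁]; linarith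
  have a3 : Θ₁ < Real.pi := by rw [hΘ₁]; linarith
  have a4 : Θ₁ < Θ := by rw [hΘ]; linarith
  have a5 : Θ < Real.pi := by rw [hΘ]; linarith
  have a0 : 0 < Θ₁ := lt_trans (by positivity) a2
  have hΘ0 : 0 < Θ := a0.trans a4
  obtain ⟨C, hC0, hC⟩ := hh_decay hr hrr hΘ0 a5
  set c₀ := -Real.cos (Θ₁ / r) with hc₀
  have hc₀pos : 0 < c₀ := by
    rw [hc₀, neg_pos]
    apply Real.cos_neg_of_pi_div_two_lt_of_lt
    · rw [lt_div_iff₀ hr0]; linarith
    · rw [div_lt_iff₀ hr0]; nlinarith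
  set ε₁ := 1 / (4 * r) * (1 - Θ₁ / Θ) with hε₁
  have hε₁pos : 0 < ε₁ := by
    have : 0 < 1 - Θ₁ / Θ := by rw [sub_pos, div_lt_one hΘ0]; exact a4
    positivity
  -- eventually
  have ev1 : ∀ᶠ s : ℝ in atTop, C * Real.exp (-(ε₁ * s)) * Θ₁ ≤ r * c₀ / 2 := by
    have h1 : Tendsto (fun s : ℝ => C * Real.exp (-(ε₁ * s)) * Θ₁) atTop (𝓝 (C * 0 * Θ₁)) := by
      refine ((Real.tendsto_exp_neg_atTop_nhds_zero.comp
        (tendsto_id.const_mul_atTop hε₁pos)).const_mul C).mul_const Θ₁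
    rw [mul_zero, zero_mul] at h1
    exact h1.eventually_le_const (by positivity)
  have ev2 : ∀ᶠ s : ℝ in atTop, 3 * s ≤ r * c₀ / 2 * Real.exp (s / r) := by
    have h1 : Tendsto (fun s : ℝ => Real.exp (s / r) / (s / r) ^ 1) atTop atTop :=
      (Real.tendsto_exp_div_pow_atTop 1).comp (tendsto_id.atTop_div_const hr0)
    filter_upwards [h1.eventually_ge_atTop (6 / c₀), eventually_gt_atTop 0] with s h2 h3
    rw [pow_one, le_div_iff₀ (by positivity)] at h2
    have h4 : r * c₀ / 2 * (6 / c₀ * (s / r)) = 3 * s := by field_simp; ring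
    rw [← h4]
    exact mul_le_mul_of_nonneg_left h2 (by positivity)
  obtain ⟨s₀, hs₀⟩ := eventually_atTop.1 ((ev1.and ev2).and (eventually_ge_atTop 0))
  refine ⟨max 1 (Real.exp s₀), le_max_left _ _, fun x hx => ?_⟩
  have hx0 : 0 < x := lt_of_lt_of_le (lt_of_lt_of_le one_pos (le_max_left _ _)) hx
  set s := Real.log x with hs
  have hss : s₀ ≤ s := by
    rw [hs, Real.le_log_iff_exp_le hx0]
    exact (le_max_right _ _).trans hx
  obtain ⟨⟨e1, e2⟩, e3⟩ := hs₀ s hss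
  have hxs : Real.exp s = x := Real.exp_log hx0
  have hz : ‖Complex.exp (s + Θ₁ * I)‖ = x := by
    rw [Complex.norm_exp, ← hxs]; simp
  refine (norm_leroy_neg_le hr0 hrr hz).trans ?_
  refine (ray_bound hr hrr a0 a4 a5 hC0 hC e3).trans ?_
  have h5 : x⁻¹ ^ 3 = Real.exp (-(3 * s)) := by
    rw [← hxs, ← Real.exp_neg, ← Real.exp_nat_mul]
    congr 1
    push_cast
    ring
  rw [h5, Real.exp_le_exp]
  have h6 : Real.exp (s / r) * (C * Real.exp (-(1 / (4 * r) * (s * (1 - Θ₁ / Θ))))) * Θ₁ ≤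
      Real.exp (s / r) * (r * c₀ / 2) := by
    rw [mul_assoc]
    refine mul_le_mul_of_nonneg_left ?_ (Real.exp_pos _).le
    refine le_trans (le_of_eq ?_) e1
    rw [hε₁]
    congr 3
    ring
  have h7 : r * Real.exp (s / r) * Real.cos (Θ₁ / r) = -(r * c₀ * Real.exp (s / r)) := by
    rw [hc₀]; ring
  rw [h7]
  linarith

end

end Pool.Agent.H49.LeRoy
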