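import Mathlib
import Pool.Agent.H49.LeRoyDecay

open Polynomial Finset Filter Topology MeasureTheory

namespace Pool.Agent.H49.LeRoy

open Pool.Agent.H49.PowerForm Pool.Agent.H49.RR

variable {r : ℝ}

/-! ## The contradiction for `1 < r < 2` -/

lemma integrableOn_rpow_exp {p b : ℝ} (hp : 0 < p) (hb : 0 < b) :
    IntegrableOn (fun t : ℝ => t ^ (p - 1) * Real.exp (-(b * t))) (Set.Ioi 0) := by
  have := integrableOn_rpow_mul_exp_neg_mul_rpow (p := 1) (s := p - 1) (b := b) (by linarith)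
    one_pos hb
  refine this.congr_fun (fun t _ => ?_) measurableSet_Ioi
  simp

lemma summable_lc_abs {σ : ℝ} (hσ : 0 < σ) (x : ℝ) : Summable (fun k => lc σ k * x ^ k) := by
  refine Summable.of_norm ?_
  have := summable_lc hσ (abs_nonneg x)
  refine this.congr (fun k => ?_)
  rw [norm_mul, norm_pow, Real.norm_of_nonneg (lc_pos σ k).le, Real.norm_eq_abs]

lemma continuous_leroyR (hr : 0 < r) : Continuous (leroyR r) := by
  have h1 : Continuous (fun x : ℝ => (leroy r (x : ℂ)).re) :=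
    Complex.continuous_re.comp ((differentiable_leroy hr).continuous.comp Complex.continuous_ofReal)
  refine h1.congr (fun x => ?_)
  rw [leroy_ofReal, Complex.ofReal_re]

lemma lc_mul_factorial (r : ℝ) (k : ℕ) : lc r k * k.factorial = lc (r - 1) k := by
  unfold lc
  have h : (0 : ℝ) < k.factorial := by exact_mod_cast Nat.factorial_pos k
  rw [Real.rpow_sub (by positivity), Real.rpow_one]
  field_simp

/-- Laplace transform -/
lemma laplace_leroy (hr : 1 < r) {η : ℝ} (hη : 0 < η) :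
    ∫ v in Set.Ioi (0 : ℝ), Real.exp (-(η * v)) * leroyR r (-v) =
      η⁻¹ * leroyR (r - 1) (-η⁻¹) := by
  have hr0 : 0 < r := by linarith
  set F : ℕ → ℝ → ℝ := fun k v => (lc r k * (-1) ^ k) * (v ^ ((k : ℝ) + 1 - 1) *
    Real.exp (-(η * v))) with hF
  have hint : ∀ k, IntegrableOn (F k) (Set.Ioi 0) := fun k =>
    (integrableOn_rpow_exp (by positivity) hη).const_mul _
  have hI : ∀ k : ℕ, ∫ t in Set.Ioi (0 : ℝ), t ^ ((k : ℝ) + 1 - 1) * Real.exp (-(η * t)) =
      η⁻¹ ^ (k + 1) * k.factorial := by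
    intro k
    rw [Real.integral_rpow_mul_exp_neg_mul_Ioi (by positivity) hη, Real.Gamma_nat_eq_factorial,
      one_div, ← Real.rpow_natCast]
    push_cast
    rfl
  have hnorm : ∀ k, ∫ v in Set.Ioi (0 : ℝ), ‖F k v‖ = η⁻¹ * (lc (r - 1) k * η⁻¹ ^ k) := by
    intro k
    have : ∫ v in Set.Ioi (0 : ℝ), ‖F k v‖ = ∫ v in Set.Ioi (0 : ℝ), lc r k *
        (v ^ ((k : ℝ) + 1 - 1) * Real.exp (-(η * v))) := by
      refine setIntegral_congr_fun measurableSet_Ioi (fun v hv => ?_)
      simp only [hF]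
      have hv' : (0 : ℝ) < v := hv
      rw [norm_mul, norm_mul, norm_pow, norm_neg, norm_one, one_pow, mul_one,
        Real.norm_of_nonneg (lc_pos r k).le, Real.norm_of_nonneg (by positivity)]
    rw [this, integral_const_mul, hI, ← lc_mul_factorial, pow_succ]
    ring
  have hsum : Summable (fun k => ∫ v in Set.Ioi (0 : ℝ), ‖F k v‖) := by
    simp only [hnorm]
    exact (summable_lc (by linarith) (by positivity)).mul_left _
  have h1 := hasSum_integral_of_summable_integral_norm hint hsum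
  have h2 : ∫ v in Set.Ioi (0 : ℝ), (∑' k, F k v) =
      ∫ v in Set.Ioi (0 : ℝ), Real.exp (-(η * v)) * leroyR r (-v) := by
    refine setIntegral_congr_fun measurableSet_Ioi (fun v hv => ?_)
    have hv' : (0 : ℝ) < v := hv
    simp only [hF, leroyR]
    rw [← tsum_mul_left]
    refine tsum_congr (fun k => ?_)
    rw [add_sub_cancel_right, Real.rpow_natCast, neg_pow v]
    ring
  have h3 : ∀ k, ∫ v in Set.Ioi (0 : ℝ), F k v = η⁻¹ * (lc (r - 1) k * (-η⁻¹) ^ k) := by
    intro k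
    simp only [hF]
    rw [integral_const_mul, hI, ← lc_mul_factorial, pow_succ, neg_pow η⁻¹]
    ring
  rw [← h2, ← h1.tsum_eq]
  simp only [h3]
  rw [tsum_mul_left]
  rfl

section

variable (hr : 1 < r) (hr2 : r < 2) (hrr : ∀ n, 0 < n → RealRooted (appr r n))
include hr hr2 hrr

lemma integrable_leroy :
    IntegrableOn (fun v : ℝ => leroyR r (-v)) (Set.Ioi 0) ∧
      IntegrableOn (fun v : ℝ => v * leroyR r (-v)) (Set.Ioi 0) := by
  have hr0 : 0 < r := by linarith
  obtain ⟨x₀, hx₀, hdec⟩ := leroy_neg_decay hr.le hrr hr2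
  have hx₀' : 0 < x₀ := by linarith
  have hcont : Continuous (fun v : ℝ => leroyR r (-v)) := (continuous_leroyR hr0).comp continuous_neg
  have hb : ∀ v, x₀ ≤ v → |leroyR r (-v)| ≤ v⁻¹ ^ 3 := by
    intro v hv
    have := hdec v hv
    rw [← Complex.ofReal_neg, leroy_ofReal, Complex.norm_real, Real.norm_eq_abs] at this
    exact this
  have hpow : IntegrableOn (fun v : ℝ => v ^ (-2 : ℝ)) (Set.Ioi x₀) :=
    integrableOn_Ioi_rpow_of_lt (by norm_num) hx₀'
  have e : Set.Ioi (0 : ℝ) = Set.Ioc 0 x₀ ∪ Set.Ioi x₀ :=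
    (Set.Ioc_union_Ioi_eq_Ioi hx₀'.le).symm
  rw [e]
  constructor
  · refine IntegrableOn.union ?_ ?_
    · exact (hcont.integrableOn_Icc).mono_set Set.Ioc_subset_Icc_self
    · refine Integrable.mono' hpow hcont.aestronglyMeasurable ?_
      refine (ae_restrict_mem measurableSet_Ioi).mono (fun v hv => ?_)
      have hv' : x₀ < v := hv
      have hv0 : 0 < v := by linarith
      rw [Real.norm_eq_abs]
      refine (hb v hv'.le).trans ?_
      rw [Real.rpow_neg hv0.le, Real.rpow_two, ← inv_pow]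
      have : v⁻¹ ≤ 1 := inv_le_one_of_one_le₀ (by linarith)
      exact pow_le_pow_of_le_one (by positivity) this (by norm_num)
  · refine IntegrableOn.union ?_ ?_
    · exact ((continuous_id.mul hcont).integrableOn_Icc).mono_set Set.Ioc_subset_Icc_self
    · refine Integrable.mono' hpow (continuous_id.mul hcont).aestronglyMeasurable ?_
      refine (ae_restrict_mem measurableSet_Ioi).mono (fun v hv => ?_)
      have hv' : x₀ < v := hv
      have hv0 : 0 < v := by linarith
      rw [norm_mul, Real.norm_eq_abs, Real.norm_eq_abs, abs_of_pos hv0]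
      calc v * |leroyR r (-v)| ≤ v * v⁻¹ ^ 3 := by
            exact mul_le_mul_of_nonneg_left (hb v hv'.le) hv0.le
        _ = v ^ (-2 : ℝ) := by
            rw [Real.rpow_neg hv0.le, Real.rpow_two]
            field_simp

/-- asymptotics of `G(X) = f_{r-1}(-X)` -/
lemma exists_asymp : ∃ c₀ C : ℝ, 0 ≤ C ∧ ∀ X : ℝ, 0 < X →
    |X * leroyR (r - 1) (-X) - c₀| ≤ C / X := by
  obtain ⟨i1, i2⟩ := integrable_leroy hr hr2 hrr
  refine ⟨∫ v in Set.Ioi (0 : ℝ), leroyR r (-v), ∫ v in Set.Ioi (0 : ℝ), |v * leroyR r (-v)|,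
    integral_nonneg (fun v => abs_nonneg _), fun X hX => ?_⟩
  have h1 := laplace_leroy hr (η := X⁻¹) (by positivity)
  rw [inv_inv] at h1
  rw [← h1]
  have hle : ∀ v ∈ Set.Ioi (0 : ℝ), ‖Real.exp (-(X⁻¹ * v)) * leroyR r (-v) - leroyR r (-v)‖ ≤
      X⁻¹ * |v * leroyR r (-v)| := by
    intro v hv
    have hv' : (0 : ℝ) < v := hv
    have e : Real.exp (-(X⁻¹ * v)) * leroyR r (-v) - leroyR r (-v) =
        -((1 - Real.exp (-(X⁻¹ * v))) * leroyR r (-v)) := by ring
    have h2 : 0 ≤ 1 - Real.exp (-(X⁻¹ * v)) := by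
      rw [sub_nonneg, Real.exp_le_one_iff, neg_nonpos]; positivity
    have h3 : 1 - Real.exp (-(X⁻¹ * v)) ≤ X⁻¹ * v := by
      have := Real.add_one_le_exp (-(X⁻¹ * v)); linarith
    rw [e, norm_neg, norm_mul, Real.norm_of_nonneg h2, Real.norm_eq_abs, abs_mul, abs_of_pos hv',
      ← mul_assoc]
    exact mul_le_mul_of_nonneg_right h3 (abs_nonneg _)
  have i3 : IntegrableOn (fun v => X⁻¹ * |v * leroyR r (-v)|) (Set.Ioi 0) := i2.abs.const_mul _
  have hmeas : AEStronglyMeasurable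
      (fun v => Real.exp (-(X⁻¹ * v)) * leroyR r (-v) - leroyR r (-v))
      (volume.restrict (Set.Ioi 0)) := by
    have hcont : Continuous (fun v : ℝ => leroyR r (-v)) :=
      (continuous_leroyR (by linarith)).comp continuous_neg
    have : Continuous (fun v => Real.exp (-(X⁻¹ * v)) * leroyR r (-v) - leroyR r (-v)) := by
      fun_prop
    exact this.aestronglyMeasurable
  have i4 : IntegrableOn (fun v => Real.exp (-(X⁻¹ * v)) * leroyR r (-v) - leroyR r (-v))
      (Set.Ioi 0) :=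
    Integrable.mono' i3 hmeas ((ae_restrict_mem measurableSet_Ioi).mono hle)
  have i5 : IntegrableOn (fun v => Real.exp (-(X⁻¹ * v)) * leroyR r (-v)) (Set.Ioi 0) := by
    have := i4.add i1
    refine this.congr_fun (fun v _ => ?_) measurableSet_Ioi
    simp
  rw [← integral_sub i5 i1, ← Real.norm_eq_abs]
  calc ‖∫ v in Set.Ioi (0 : ℝ), (Real.exp (-(X⁻¹ * v)) * leroyR r (-v) - leroyR r (-v))‖ ≤
      ∫ v in Set.Ioi (0 : ℝ), X⁻¹ * |v * leroyR r (-v)| :=
        norm_integral_le_of_norm_le i3 ((ae_restrict_mem measurableSet_Ioi).mono hle)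
    _ = _ := by rw [integral_const_mul]; ring

end

/-! ### The integral of `G` -/

/-- `H(x) = ∫_0^x f_σ(-t) dt` as a power series -/
noncomputable def HH (σ x : ℝ) : ℝ := ∑' k : ℕ, (-1) ^ k * lc σ k / ((k : ℝ) + 1) * x ^ (k + 1)

lemma hasDerivAt_HH {σ : ℝ} (hσ : 0 < σ) (x : ℝ) : HasDerivAt (HH σ) (leroyR σ (-x)) x := by
  have hg : ∀ (k : ℕ) (y : ℝ), y ∈ Metric.ball (0 : ℝ) (|x| + 1) →
      HasDerivAt (fun y : ℝ => (-1 : ℝ) ^ k * lc σ k / ((k : ℝ) + 1) * y ^ (k + 1))
        ((-1 : ℝ) ^ k * lc σ k * y ^ k) y := by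
    intro k y _
    have := (hasDerivAt_pow (k + 1) y).const_mul ((-1 : ℝ) ^ k * lc σ k / ((k : ℝ) + 1))
    refine this.congr_deriv ?_
    push_cast
    field_simp
  have hg' : ∀ (k : ℕ) (y : ℝ), y ∈ Metric.ball (0 : ℝ) (|x| + 1) →
      ‖(-1 : ℝ) ^ k * lc σ k * y ^ k‖ ≤ lc σ k * (|x| + 1) ^ k := by
    intro k y hy
    rw [norm_mul, norm_mul, norm_pow, norm_pow, norm_neg, norm_one, one_pow, one_mul,
      Real.norm_of_nonneg (lc_pos σ k).le]
    have : ‖y‖ ≤ |x| + 1 := by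
      have := hy
      rw [mem_ball_zero_iff] at this
      exact this.le
    have hl := (lc_pos σ k).le
    gcongr
  have h0mem : (0 : ℝ) ∈ Metric.ball (0 : ℝ) (|x| + 1) := by
    rw [mem_ball_zero_iff, norm_zero]; positivity
  have h1 : HasDerivAt (fun y : ℝ => ∑' k : ℕ, (-1 : ℝ) ^ k * lc σ k / ((k : ℝ) + 1) * y ^ (k + 1))
      (∑' k : ℕ, (-1 : ℝ) ^ k * lc σ k * x ^ k) x := by
    refine hasDerivAt_tsum_of_isPreconnected (summable_lc hσ (R := |x| + 1) (by positivity))
      Metric.isOpen_ball (convex_ball _ _).isPreconnected hg hg' h0mem ?_ ?_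
    · simp
    · rw [mem_ball_zero_iff, Real.norm_eq_abs]; linarith
  have h2 : ∑' k : ℕ, (-1) ^ k * lc σ k * x ^ k = leroyR σ (-x) := by
    unfold leroyR
    refine tsum_congr (fun k => ?_)
    rw [neg_pow x]
    ring
  rw [h2] at h1
  exact h1

lemma lc_succ' {σ : ℝ} (k : ℕ) :
    lc σ (k + 1) * (1 / ((k : ℝ) + 1)) ^ (1 - σ) = lc σ k / ((k : ℝ) + 1) := by
  rw [lc_succ, mul_assoc, ← Real.rpow_add (by positivity), add_sub_cancel, Real.rpow_one]
  ring

/-- fractional integral representation of `H` -/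
lemma HH_eq_integral {σ : ℝ} (hσ : 0 < σ) (hσ1 : σ < 1) {x : ℝ} (hx : 0 ≤ x) :
    ∫ u in Set.Ioi (0 : ℝ), u ^ (1 - σ - 1) * (1 - leroyR σ (-(x * Real.exp (-u)))) =
      Real.Gamma (1 - σ) * HH σ x := by
  have ha : 0 < 1 - σ := by linarith
  set F : ℕ → ℝ → ℝ := fun k u => ((-1) ^ k * lc σ (k + 1) * x ^ (k + 1)) *
    (u ^ (1 - σ - 1) * Real.exp (-(((k : ℝ) + 1) * u))) with hF
  have hint : ∀ k, IntegrableOn (F k) (Set.Ioi 0) := fun k =>
    (integrableOn_rpow_exp ha (by positivity)).const_mul _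
  have hI : ∀ k : ℕ, ∫ t in Set.Ioi (0 : ℝ), t ^ (1 - σ - 1) * Real.exp (-(((k : ℝ) + 1) * t)) =
      (1 / ((k : ℝ) + 1)) ^ (1 - σ) * Real.Gamma (1 - σ) := by
    intro k
    rw [Real.integral_rpow_mul_exp_neg_mul_Ioi ha (by positivity)]
  have hnorm : ∀ k, ∫ v in Set.Ioi (0 : ℝ), ‖F k v‖ =
      (lc σ k / ((k : ℝ) + 1) * x ^ (k + 1)) * Real.Gamma (1 - σ) := by
    intro k
    have : ∫ v in Set.Ioi (0 : ℝ), ‖F k v‖ = ∫ v in Set.Ioi (0 : ℝ), (lc σ (k + 1) * x ^ (k + 1)) *
        (v ^ (1 - σ - 1) * Real.exp (-(((k : ℝ) + 1) * v))) := by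
      refine setIntegral_congr_fun measurableSet_Ioi (fun v hv => ?_)
      simp only [hF]
      have hv' : (0 : ℝ) < v := hv
      have hl := (lc_pos σ (k + 1)).le
      rw [norm_mul, norm_mul, norm_mul, norm_pow, norm_neg, norm_one, one_pow, one_mul,
        Real.norm_of_nonneg hl, Real.norm_of_nonneg (by positivity),
        Real.norm_of_nonneg (by positivity)]
    rw [this, integral_const_mul, hI, ← lc_succ']
    ring
  have hsum : Summable (fun k => ∫ v in Set.Ioi (0 : ℝ), ‖F k v‖) := by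
    simp only [hnorm]
    refine Summable.mul_right _ ?_
    refine Summable.of_nonneg_of_le (fun k => ?_) (fun k => ?_) ((summable_lc hσ hx).mul_right x)
    · have := (lc_pos σ k).le
      positivity
    · have := (lc_pos σ k).le
      have h1 : lc σ k / ((k : ℝ) + 1) ≤ lc σ k :=
        div_le_self this (by have : (0 : ℝ) ≤ k := by positivity
                             linarith)
      calc lc σ k / ((k : ℝ) + 1) * x ^ (k + 1) ≤ lc σ k * x ^ (k + 1) := by gcongr
        _ = lc σ k * x ^ k * x := by ring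
  have h1 := hasSum_integral_of_summable_integral_norm hint hsum
  have h2 : ∫ v in Set.Ioi (0 : ℝ), (∑' k, F k v) =
      ∫ u in Set.Ioi (0 : ℝ), u ^ (1 - σ - 1) * (1 - leroyR σ (-(x * Real.exp (-u)))) := by
    refine setIntegral_congr_fun measurableSet_Ioi (fun v hv => ?_)
    have hv' : (0 : ℝ) < v := hv
    simp only [hF, leroyR]
    rw [(summable_lc_abs hσ (-(x * Real.exp (-v)))).tsum_eq_zero_add, lc_zero, pow_zero, mul_one,
      ← sub_sub, sub_self, zero_sub, ← tsum_neg, ← tsum_mul_left]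
    refine tsum_congr (fun k => ?_)
    have e1 : Real.exp (-(((k : ℝ) + 1) * v)) = Real.exp (-v) ^ (k + 1) := by
      rw [← Real.exp_nat_mul]; congr 1; push_cast; ring
    rw [e1, neg_pow (x * Real.exp (-v)), mul_pow]
    ring
  have h3 : ∀ k, ∫ v in Set.Ioi (0 : ℝ), F k v =
      Real.Gamma (1 - σ) * ((-1) ^ k * lc σ k / ((k : ℝ) + 1) * x ^ (k + 1)) := by
    intro k
    simp only [hF]
    rw [integral_const_mul, hI, mul_div_assoc, ← lc_succ']
    ring
  rw [← h2, ← h1.tsum_eq]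
  simp only [h3]
  rw [tsum_mul_left]
  rfl


lemma one_sub_leroyR_le {σ : ℝ} (hσ : 0 < σ) : ∃ C : ℝ, 0 ≤ C ∧ ∀ y, 0 ≤ y → y ≤ 1 →
    |1 - leroyR σ (-y)| ≤ C * y := by
  refine ⟨∑' k, lc σ (k + 1), tsum_nonneg (fun k => (lc_pos σ _).le), fun y hy0 hy1 => ?_⟩
  have hs := summable_lc_abs hσ (-y)
  unfold leroyR
  rw [hs.tsum_eq_zero_add, lc_zero, pow_zero, mul_one, ← sub_sub, sub_self, zero_sub, abs_neg]
  have hs1 : Summable (fun k => lc σ (k + 1)) := by
    have := summable_lc hσ (R := 1) zero_le_one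
    simp only [one_pow, mul_one] at this
    exact (summable_nat_add_iff 1).2 this
  have hs2 : Summable (fun k => lc σ (k + 1) * y) := hs1.mul_right y
  have hb : ∀ k, ‖lc σ (k + 1) * (-y) ^ (k + 1)‖ ≤ lc σ (k + 1) * y := by
    intro k
    have hl := (lc_pos σ (k + 1)).le
    rw [norm_mul, norm_pow, norm_neg, Real.norm_of_nonneg hl, Real.norm_of_nonneg hy0]
    have : y ^ (k + 1) ≤ y ^ 1 := pow_le_pow_of_le_one hy0 hy1 (by omega)
    rw [pow_one] at this
    gcongr
  have h1 := tsum_of_norm_bounded hs2.hasSum hb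
  rw [tsum_mul_right] at h1
  exact h1

lemma exp_neg_abs_le (t : ℝ) : Real.exp (-|t|) ≤ 2 * (1 + t ^ 2)⁻¹ := by
  have h1 := Real.quadratic_le_exp_of_nonneg (abs_nonneg t)
  rw [sq_abs] at h1
  rw [Real.exp_neg, ← div_eq_mul_inv, inv_eq_one_div, div_le_div_iff₀ (Real.exp_pos _) (by positivity)]
  have := abs_nonneg t
  linarith

lemma integral_HH_bound {σ : ℝ} (hσ : 0 < σ) (hσ1 : σ < 1) {c₀ C : ℝ} (hC0 : 0 ≤ C)
    (hC : ∀ X : ℝ, 0 < X → |X * leroyR σ (-X) - c₀| ≤ C / X) :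
    ∃ K, ∀ T : ℝ, 0 ≤ T →
      |Real.Gamma (1 - σ) * HH σ (Real.exp T) - T ^ (1 - σ) / (1 - σ)| ≤ K := by
  have ha : 0 < 1 - σ := by linarith
  set a := 1 - σ with hadef
  obtain ⟨C₅, hC₅0, hC₅⟩ := one_sub_leroyR_le hσ
  set C₆ := C₅ + |c₀| + C with hC₆
  have hC₆0 : 0 ≤ C₆ := by have := abs_nonneg c₀; positivity
  refine ⟨C₆ * (1 / a + 2 * Real.pi), fun T hT => ?_⟩
  set g : ℝ → ℝ := fun u => u ^ (a - 1) * (1 - leroyR σ (-(Real.exp T * Real.exp (-u)))) with hg
  set g₀ : ℝ → ℝ := fun u => (Set.Ioc 0 T).indicator (fun u => u ^ (a - 1)) u with hg₀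
  set w : ℝ → ℝ := fun u => (Set.Ioc 0 1).indicator (fun u => u ^ (a - 1)) u +
    2 * (1 + (T - u) ^ 2)⁻¹ with hw
  have hIoc : ∀ S : ℝ, 0 ≤ S → IntegrableOn (fun u : ℝ => u ^ (a - 1)) (Set.Ioc 0 S) := by
    intro S hS
    rw [← intervalIntegrable_iff_integrableOn_Ioc_of_le hS]
    exact intervalIntegral.intervalIntegrable_rpow' (by linarith)
  have hIocI : ∀ S : ℝ, 0 ≤ S → ∫ u in Set.Ioc 0 S, u ^ (a - 1) = S ^ a / a := by
    intro S hS
    rw [← intervalIntegral.integral_of_le hS, integral_rpow (Or.inl (by linarith))]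
    rw [sub_add_cancel, Real.zero_rpow ha.ne', sub_zero]
  have hint0 : ∀ S : ℝ, 0 ≤ S →
      IntegrableOn ((Set.Ioc 0 S).indicator (fun u : ℝ => u ^ (a - 1))) (Set.Ioi 0) := by
    intro S hS
    exact ((hIoc S hS).integrable_indicator measurableSet_Ioc).integrableOn
  have hintI : ∀ S : ℝ, 0 ≤ S →
      ∫ u in Set.Ioi 0, (Set.Ioc 0 S).indicator (fun u : ℝ => u ^ (a - 1)) u = S ^ a / a := by
    intro S hS
    rw [setIntegral_indicator measurableSet_Ioc, ← hIocI S hS]
    congr 2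
    ext u
    simp only [Set.mem_inter_iff, Set.mem_Ioi, Set.mem_Ioc]
    tauto
  have hcauchy : Integrable (fun u : ℝ => 2 * (1 + (T - u) ^ 2)⁻¹) := by
    have h1 : Integrable (fun u : ℝ => (1 + u ^ 2)⁻¹) := integrable_inv_one_add_sq
    exact (h1.comp_sub_left T).const_mul 2
  have hcauchyI : ∫ u : ℝ, 2 * (1 + (T - u) ^ 2)⁻¹ = 2 * Real.pi := by
    rw [integral_const_mul, integral_sub_left_eq_self (fun u : ℝ => (1 + u ^ 2)⁻¹) volume T,
      integral_univ_inv_one_add_sq]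
  have hwint : IntegrableOn w (Set.Ioi 0) := (hint0 1 zero_le_one).add hcauchy.integrableOn
  have hwI : ∫ u in Set.Ioi 0, w u ≤ 1 / a + 2 * Real.pi := by
    have e1 : ∫ u in Set.Ioi 0, w u = (∫ u in Set.Ioi 0, (Set.Ioc 0 1).indicator
        (fun u : ℝ => u ^ (a - 1)) u) + ∫ u in Set.Ioi 0, 2 * (1 + (T - u) ^ 2)⁻¹ :=
      integral_add (hint0 1 zero_le_one) hcauchy.integrableOn
    rw [e1, hintI 1 zero_le_one, Real.one_rpow, ← hcauchyI]
    refine add_le_add le_rfl ?_
    exact setIntegral_le_integral hcauchy (Filter.Eventually.of_forall (fun u => by positivity))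
  -- pointwise bound
  have hpt : ∀ u ∈ Set.Ioi (0 : ℝ), ‖g u - g₀ u‖ ≤ C₆ * w u := by
    intro u hu
    have hu0 : (0 : ℝ) < u := hu
    have hup : 0 < u ^ (a - 1) := Real.rpow_pos_of_pos hu0 _
    have hexp : Real.exp T * Real.exp (-u) = Real.exp (T - u) := by
      rw [← Real.exp_add]; rfl
    have hkey : ‖g u - g₀ u‖ ≤ C₆ * (u ^ (a - 1) * Real.exp (-|T - u|)) := by
      simp only [hg, hg₀]
      rw [hexp]
      rcases le_or_gt u T with h | h
      · rw [Set.indicator_of_mem (show u ∈ Set.Ioc 0 T from ⟨hu0, h⟩)]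
        have e1 : u ^ (a - 1) * (1 - leroyR σ (-Real.exp (T - u))) - u ^ (a - 1) =
            -(u ^ (a - 1) * leroyR σ (-Real.exp (T - u))) := by ring
        rw [e1, norm_neg, norm_mul, Real.norm_of_nonneg hup.le, Real.norm_eq_abs,
          abs_of_nonneg (sub_nonneg.2 h)]
        have hy1 : 1 ≤ Real.exp (T - u) := Real.one_le_exp (by linarith)
        set y := Real.exp (T - u) with hy
        have hy0 : 0 < y := by linarith
        have h2 := hC y hy0
        have h3 : |y * leroyR σ (-y)| ≤ |c₀| + C := by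
          have h4 : C / y ≤ C := div_le_self hC0 hy1
          have h5 := abs_sub_abs_le_abs_sub (y * leroyR σ (-y)) c₀
          linarith
        rw [abs_mul, abs_of_pos hy0] at h3
        have h6 : |leroyR σ (-y)| ≤ (|c₀| + C) * Real.exp (-(T - u)) := by
          rw [Real.exp_neg, ← hy, ← div_eq_mul_inv, le_div_iff₀ hy0]
          linarith
        calc u ^ (a - 1) * |leroyR σ (-y)| ≤ u ^ (a - 1) * ((|c₀| + C) * Real.exp (-(T - u))) := by
              gcongr
          _ = (|c₀| + C) * (u ^ (a - 1) * Real.exp (-(T - u))) := by ring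
          _ ≤ C₆ * (u ^ (a - 1) * Real.exp (-(T - u))) := by
              refine mul_le_mul_of_nonneg_right ?_ (by positivity)
              rw [hC₆]; linarith
      · rw [Set.indicator_of_notMem (by simp [h]), sub_zero, norm_mul,
          Real.norm_of_nonneg hup.le, Real.norm_eq_abs, abs_of_neg (show T - u < 0 by linarith)]
        have h2 := hC₅ (Real.exp (T - u)) (Real.exp_pos _).le (Real.exp_le_one_iff.2 (by linarith))
        rw [neg_neg]
        calc u ^ (a - 1) * |1 - leroyR σ (-Real.exp (T - u))| ≤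
            u ^ (a - 1) * (C₅ * Real.exp (T - u)) := by gcongr
          _ = C₅ * (u ^ (a - 1) * Real.exp (T - u)) := by ring
          _ ≤ C₆ * (u ^ (a - 1) * Real.exp (T - u)) := by
              refine mul_le_mul_of_nonneg_right ?_ (by positivity)
              have := abs_nonneg c₀
              rw [hC₆]; linarith
    refine hkey.trans (mul_le_mul_of_nonneg_left ?_ hC₆0)
    simp only [hw]
    rcases le_or_gt u 1 with h | h
    · rw [Set.indicator_of_mem (show u ∈ Set.Ioc (0 : ℝ) 1 from ⟨hu0, h⟩)]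
      have h2 : Real.exp (-|T - u|) ≤ 1 := Real.exp_le_one_iff.2 (by have := abs_nonneg (T - u); linarith)
      have h3 : (0 : ℝ) ≤ 2 * (1 + (T - u) ^ 2)⁻¹ := by positivity
      nlinarith
    · rw [Set.indicator_of_notMem (by simp [h]), zero_add]
      have h2 : u ^ (a - 1) ≤ 1 := Real.rpow_le_one_of_one_le_of_nonpos h.le (by linarith)
      calc u ^ (a - 1) * Real.exp (-|T - u|) ≤ 1 * Real.exp (-|T - u|) := by gcongr
        _ ≤ _ := by rw [one_mul]; exact exp_neg_abs_le _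
  have hgm : AEStronglyMeasurable (fun u => g u - g₀ u) (volume.restrict (Set.Ioi 0)) := by
    refine AEStronglyMeasurable.sub ?_ ?_
    · refine ContinuousOn.aestronglyMeasurable (fun u hu => ?_) measurableSet_Ioi
      have hu0 : (0 : ℝ) < u := hu
      have hc : Continuous (fun u : ℝ => 1 - leroyR σ (-(Real.exp T * Real.exp (-u)))) := by
        have := continuous_leroyR hσ
        fun_prop
      exact ((Real.continuousAt_rpow_const u (a - 1) (Or.inl hu0.ne')).mul
        hc.continuousAt).continuousWithinAt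
    · exact (hint0 T hT).aestronglyMeasurable
  have hdint : IntegrableOn (fun u => g u - g₀ u) (Set.Ioi 0) :=
    Integrable.mono' (hwint.const_mul C₆) hgm ((ae_restrict_mem measurableSet_Ioi).mono hpt)
  have hgint : IntegrableOn g (Set.Ioi 0) := by
    have := hdint.add (hint0 T hT)
    refine this.congr_fun (fun u _ => ?_) measurableSet_Ioi
    simp [hg₀]
  have e1 := HH_eq_integral hσ hσ1 (Real.exp_pos T).le
  rw [← hadef] at e1
  rw [← e1, ← hintI T hT, ← Real.norm_eq_abs]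
  have e2 : (∫ u in Set.Ioi (0 : ℝ), g u) - ∫ u in Set.Ioi (0 : ℝ), g₀ u =
      ∫ u in Set.Ioi (0 : ℝ), (g u - g₀ u) := (integral_sub hgint (hint0 T hT)).symm
  calc ‖(∫ u in Set.Ioi (0 : ℝ), g u) - ∫ u in Set.Ioi (0 : ℝ), g₀ u‖ =
      ‖∫ u in Set.Ioi (0 : ℝ), (g u - g₀ u)‖ := by rw [e2]
    _ ≤ ∫ u in Set.Ioi (0 : ℝ), C₆ * w u := norm_integral_le_of_norm_le (hwint.const_mul C₆)
        ((ae_restrict_mem measurableSet_Ioi).mono hpt)
    _ = C₆ * ∫ u in Set.Ioi (0 : ℝ), w u := integral_const_mul _ _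
    _ ≤ _ := mul_le_mul_of_nonneg_left hwI hC₆0

lemma HH_log_bound {σ : ℝ} (hσ : 0 < σ) {c₀ C : ℝ}
    (hC : ∀ X : ℝ, 0 < X → |X * leroyR σ (-X) - c₀| ≤ C / X) {T : ℝ} (hT : 0 ≤ T) :
    |HH σ (Real.exp T) - c₀ * T - HH σ 1| ≤ C := by
  -- derivative of `T ↦ H(e^T) - c₀ T`
  have hd : ∀ t : ℝ, HasDerivAt (fun t => HH σ (Real.exp t) - c₀ * t)
      (Real.exp t * leroyR σ (-Real.exp t) - c₀) t := by
    intro t
    have h1 := (hasDerivAt_HH hσ (Real.exp t)).comp t (Real.hasDerivAt_exp t)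
    have h2 := h1.sub ((hasDerivAt_id t).const_mul c₀)
    refine h2.congr_deriv ?_
    ring
  have hb : ∀ t : ℝ, |Real.exp t * leroyR σ (-Real.exp t) - c₀| ≤ C * Real.exp (-t) := by
    intro t
    have := hC (Real.exp t) (Real.exp_pos t)
    rwa [div_eq_mul_inv, ← Real.exp_neg] at this
  have hd2 : ∀ t : ℝ, HasDerivAt (fun t => C * Real.exp (-t)) (-(C * Real.exp (-t))) t := by
    intro t
    have := ((hasDerivAt_neg t).exp).const_mul C
    refine this.congr_deriv ?_
    ring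
  have hanti : Antitone (fun t => (HH σ (Real.exp t) - c₀ * t) + C * Real.exp (-t)) := by
    refine antitone_of_hasDerivAt_nonpos (fun t => (hd t).add (hd2 t)) (fun t => ?_)
    have := (abs_le.1 (hb t)).2
    simp only [Pi.zero_apply]
    linarith
  have hmono : Monotone (fun t => (HH σ (Real.exp t) - c₀ * t) - C * Real.exp (-t)) := by
    refine monotone_of_hasDerivAt_nonneg (fun t => (hd t).sub (hd2 t)) (fun t => ?_)
    have := (abs_le.1 (hb t)).1
    simp only [Pi.zero_apply]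
    linarith
  have h1 := hanti hT
  have h2 := hmono hT
  simp only [Real.exp_zero, mul_zero, sub_zero, neg_zero, mul_one] at h1 h2
  have hC0 : 0 ≤ C := by
    have := (abs_nonneg _).trans (hb 0)
    simpa using this
  have h3 : 0 ≤ C * Real.exp (-T) := by positivity
  rw [abs_le]
  constructor <;> linarith

/-- For `1 < r < 2` not all approximants of the Le Roy function are real-rooted. -/
theorem no_realRooted (hr : 1 < r) (hr2 : r < 2) (hrr : ∀ n, 0 < n → RealRooted (appr r n)) :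
    False := by
  obtain ⟨c₀, C, hC0, hC⟩ := exists_asymp hr hr2 hrr
  have hσ : 0 < r - 1 := by linarith
  have hσ1 : r - 1 < 1 := by linarith
  obtain ⟨K, hK⟩ := integral_HH_bound hσ hσ1 hC0 hC
  set σ := r - 1 with hσdef
  set a := 1 - σ with ha
  have ha0 : 0 < a := by rw [ha]; linarith
  have ha1 : a < 1 := by rw [ha]; linarith
  set γ := Real.Gamma a with hγ
  have hγ0 : 0 < γ := Real.Gamma_pos_of_pos ha0
  -- `T^a / a - γ c₀ T` is bounded
  have hφ : ∀ T : ℝ, 0 ≤ T → |T ^ a / a - γ * c₀ * T| ≤ K + γ * (C + |HH σ 1|) := by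
    intro T hT
    have h1 := hK T hT
    have h2 := HH_log_bound hσ hC hT
    have h3 : |γ * (HH σ (Real.exp T) - c₀ * T - HH σ 1)| ≤ γ * C := by
      rw [abs_mul, abs_of_pos hγ0]
      exact mul_le_mul_of_nonneg_left h2 hγ0.le
    have h4 : |γ * HH σ 1| ≤ γ * |HH σ 1| := by rw [abs_mul, abs_of_pos hγ0]
    have e : T ^ a / a - γ * c₀ * T = -(γ * HH σ (Real.exp T) - T ^ a / a) +
        γ * (HH σ (Real.exp T) - c₀ * T - HH σ 1) + γ * HH σ 1 := by ring
    rw [e]
    refine (abs_add_three _ _ _).trans ?_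
    rw [abs_neg]
    linarith
  set K₂ := K + γ * (C + |HH σ 1|) with hK₂
  have h2a : (2 : ℝ) ^ a < 2 := by
    calc (2 : ℝ) ^ a < 2 ^ (1 : ℝ) := Real.rpow_lt_rpow_of_exponent_lt (by norm_num) ha1
      _ = 2 := Real.rpow_one 2
  have hbd : ∀ T : ℝ, 0 ≤ T → (2 - 2 ^ a) / a * T ^ a ≤ 3 * K₂ := by
    intro T hT
    have h1 := (abs_le.1 (hφ T hT)).2
    have h2 := (abs_le.1 (hφ (2 * T) (by positivity))).1
    rw [Real.mul_rpow (by norm_num) hT] at h2
    have e : (2 - 2 ^ a) / a * T ^ a = 2 * (T ^ a / a - γ * c₀ * T) -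
        (2 ^ a * T ^ a / a - γ * c₀ * (2 * T)) := by ring
    rw [e]
    linarith
  have hlim : Tendsto (fun T : ℝ => (2 - 2 ^ a) / a * T ^ a) atTop atTop :=
    (tendsto_rpow_atTop ha0).const_mul_atTop (div_pos (by linarith) ha0)
  obtain ⟨T, hT1, hT2⟩ := ((hlim.eventually_gt_atTop (3 * K₂)).and (eventually_ge_atTop 0)).exists
  exact absurd (hbd T hT2) (not_le.2 hT1)

end Pool.Agent.H49.LeRoy
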